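import Mathlib

set_option autoImplicit false

namespace Pool.Agent.H290R3.HHGDefs

variable {G : Type} [Group G]

/-- Word length with respect to a generating set `T`. -/
noncomputable def wordLen (T : Set G) (g : G) : ℕ :=
  sInf {n | ∃ l : List G, l.length = n ∧ (∀ x ∈ l, x ∈ T ∨ x⁻¹ ∈ T) ∧ l.prod = g}

/-- The word metric: the distance in the Cayley graph. -/
noncomputable def wordDist (T : Set G) (x y : G) : ℕ := wordLen T (x⁻¹ * y)

/-- `H` is almost malnormal: `H ∩ g H g⁻¹` is finite for all `g` outside `H`. -/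
def AlmostMalnormal (H : Subgroup G) : Prop :=
  ∀ g : G, g ∉ H → {x : G | x ∈ H ∧ ∃ h ∈ H, x = g * h * g⁻¹}.Finite

/-- `p 0, ..., p n` is a `(K, C)`-quasi-geodesic in the Cayley graph. -/
def IsQuasiGeodesic (T : Set G) (K C : ℝ) (n : ℕ) (p : ℕ → G) : Prop :=
  ∀ i ≤ n, ∀ j ≤ n, |(i : ℝ) - (j : ℝ)| / K - C ≤ (wordDist T (p i) (p j) : ℝ) ∧
    (wordDist T (p i) (p j) : ℝ) ≤ K * |(i : ℝ) - (j : ℝ)| + C

/-- `H` is strongly quasiconvex: quasi-geodesics with end points in `H` stay uniformly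
close to `H`. -/
def StronglyQuasiconvex (T : Set G) (H : Subgroup G) : Prop :=
  ∀ K C : ℝ, 1 ≤ K → 0 ≤ C → ∃ M : ℝ, ∀ (n : ℕ) (p : ℕ → G), IsQuasiGeodesic T K C n p →
    p 0 ∈ H → p n ∈ H → ∀ i ≤ n, ∃ h ∈ H, (wordDist T (p i) h : ℝ) ≤ M

/-- A connected graph is `δ`-hyperbolic (four point condition). -/
def Hyperbolic {V : Type} (δ : ℝ) (Γ : SimpleGraph V) : Prop :=
  Γ.Connected ∧ ∀ x y z w : V, (Γ.dist x y : ℝ) + Γ.dist z w ≤
    max ((Γ.dist x z : ℝ) + Γ.dist y w) ((Γ.dist x w : ℝ) + Γ.dist y z) + 2 * δ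

/-- Distance between two sets of vertices. -/
noncomputable def setDist {V : Type} (Γ : SimpleGraph V) (A B : Set V) : ℝ :=
  sInf {r : ℝ | ∃ p ∈ A, ∃ q ∈ B, r = (Γ.dist p q : ℝ)}

/-- The diameter of a set of vertices is at most `c`. -/
def DiamLE {V : Type} (Γ : SimpleGraph V) (A : Set V) (c : ℝ) : Prop :=
  ∀ p ∈ A, ∀ q ∈ A, (Γ.dist p q : ℝ) ≤ c

/-- `γ 0, ..., γ m` is a geodesic. -/
def IsGeodesic {V : Type} (Γ : SimpleGraph V) (m : ℕ) (γ : ℕ → V) : Prop :=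
  ∀ i ≤ m, ∀ j ≤ m, i ≤ j → Γ.dist (γ i) (γ j) = j - i

/-- A hierarchically hyperbolic group structure on `G` with its word metric for the generating
set `T` (Behrstock-Hagen-Sisto): the hyperbolic spaces are graphs, and all equivariance
conditions are required to hold exactly. -/
structure HHG (G : Type) [Group G] (T : Set G) where
  /-- the index set -/
  Idx : Type
  /-- the vertex sets of the hyperbolic graphs -/
  C : Idx → Type
  /-- the hyperbolic graphs -/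
  graph : (W : Idx) → SimpleGraph (C W)
  δ : ℝ
  ξ : ℝ
  K : ℝ
  κ : ℝ
  E : ℝ
  lam : ℝ
  α : ℝ
  hyperbolic : ∀ W, Hyperbolic δ (graph W)
  /-- (1) projections -/
  proj : (W : Idx) → G → Set (C W)
  proj_nonempty : ∀ W x, (proj W x).Nonempty
  proj_diam : ∀ W x, DiamLE (graph W) (proj W x) ξ
  proj_lipschitz : ∀ W x y, ∀ p ∈ proj W x, ∀ q ∈ proj W y,
    ((graph W).dist p q : ℝ) ≤ K * (wordDist T x y : ℝ) + K
  proj_quasiconvex : ∀ W x y, ∀ p ∈ proj W x, ∀ q ∈ proj W y, ∀ m : C W,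
    (graph W).dist p m + (graph W).dist m q = (graph W).dist p q →
    ∃ z, ∃ r ∈ proj W z, ((graph W).dist m r : ℝ) ≤ K
  /-- (2) nesting: a partial order with a largest element -/
  nest : Idx → Idx → Prop
  nest_refl : ∀ W, nest W W
  nest_trans : ∀ U V W, nest U V → nest V W → nest U W
  nest_antisymm : ∀ V W, nest V W → nest W V → V = W
  top : Idx
  nest_top : ∀ W, nest W top
  /-- (3) orthogonality -/
  orth : Idx → Idx → Prop
  orth_symm : ∀ V W, orth V W → orth W V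
  orth_irrefl : ∀ V, ¬ orth V V
  orth_of_nest : ∀ U V W, nest V W → orth W U → orth V U
  container : ∀ R U, nest U R → (∃ V, nest V R ∧ orth V U) →
    ∃ W, nest W R ∧ W ≠ R ∧ ∀ V, orth V U → nest V R → nest V W
  orth_not_nest : ∀ V W, orth V W → ¬ nest V W
  /-- the sets `ρ^V_W` in `C W`, relevant when `V` is properly nested in `W` or transverse to it -/
  rho : (V W : Idx) → Set (C W)
  /-- the maps `ρ^W_V` from `C W` to subsets of `C V`, relevant when `V` is properly nested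
  in `W` -/
  rhoMap : (W V : Idx) → C W → Set (C V)
  rho_nonempty : ∀ V W, (nest V W ∧ V ≠ W) ∨ (¬ orth V W ∧ ¬ nest V W ∧ ¬ nest W V) →
    (rho V W).Nonempty
  rho_diam : ∀ V W, (nest V W ∧ V ≠ W) ∨ (¬ orth V W ∧ ¬ nest V W ∧ ¬ nest W V) →
    DiamLE (graph W) (rho V W) ξ
  /-- (4) transversality and consistency -/
  consistency_transverse : ∀ V W, (¬ orth V W ∧ ¬ nest V W ∧ ¬ nest W V) → ∀ x,
    setDist (graph W) (proj W x) (rho V W) ≤ κ ∨ setDist (graph V) (proj V x) (rho W V) ≤ κ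
  consistency_nested : ∀ V W, nest V W → V ≠ W → ∀ x,
    setDist (graph W) (proj W x) (rho V W) ≤ κ ∨
      DiamLE (graph V) (proj V x ∪ {q | ∃ w ∈ proj W x, q ∈ rhoMap W V w}) κ
  consistency_rho : ∀ U V W, nest U V →
    ((nest V W ∧ V ≠ W) ∨ ((¬ orth V W ∧ ¬ nest V W ∧ ¬ nest W V) ∧ ¬ orth W U)) →
    setDist (graph W) (rho U W) (rho V W) ≤ κ
  /-- (5) finite complexity -/
  complexity : ∃ n : ℕ, ∀ F : Finset Idx, (∀ V ∈ F, ∀ W ∈ F, nest V W ∨ nest W V) → F.card ≤ n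
  lam_ge : 1 ≤ lam
  E_ge : max ξ κ ≤ E
  /-- (6) large links -/
  large_links : ∀ W x x', ∃ F : Finset Idx,
    (F.card : ℝ) ≤ lam * setDist (graph W) (proj W x) (proj W x') + lam ∧
    (∀ V ∈ F, nest V W ∧ V ≠ W ∧ setDist (graph W) (proj W x) (rho V W) ≤
      lam * setDist (graph W) (proj W x) (proj W x') + lam) ∧
    ∀ V, nest V W → V ≠ W → (∃ V' ∈ F, nest V V') ∨
      setDist (graph V) (proj V x) (proj V x') < E
  /-- (7) bounded geodesic image -/
  bounded_geodesic_image : ∀ V W, nest V W → V ≠ W → ∀ (m : ℕ) (γ : ℕ → C W),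
    IsGeodesic (graph W) m γ →
    DiamLE (graph V) {q | ∃ i ≤ m, q ∈ rhoMap W V (γ i)} E ∨
      ∃ i ≤ m, ∃ q ∈ rho V W, ((graph W).dist (γ i) q : ℝ) ≤ E
  /-- (8) partial realization -/
  partial_realization : ∀ (J : Set Idx), (∀ V ∈ J, ∀ W ∈ J, V ≠ W → orth V W) →
    ∀ p : (V : Idx) → C V, (∀ V ∈ J, ∃ y, p V ∈ proj V y) →
    ∃ x, ∀ V ∈ J, setDist (graph V) (proj V x) {p V} ≤ α ∧
      ∀ W, (nest V W ∧ V ≠ W) ∨ (¬ orth V W ∧ ¬ nest V W ∧ ¬ nest W V) →
        setDist (graph W) (proj W x) (rho V W) ≤ α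
  /-- (9) uniqueness -/
  uniqueness : ∀ c : ℝ, ∃ θ : ℝ, ∀ x y, θ ≤ (wordDist T x y : ℝ) →
    ∃ V, c ≤ setDist (graph V) (proj V x) (proj V y)
  /-- (10) the group acts: on the index set, with finitely many orbits, and by isometries
  between the hyperbolic graphs, compatibly with everything -/
  act : G → Idx → Idx
  act_one : ∀ W, act 1 W = W
  act_mul : ∀ g h W, act (g * h) W = act g (act h W)
  act_nest : ∀ g V W, nest V W ↔ nest (act g V) (act g W)
  act_orth : ∀ g V W, orth V W ↔ orth (act g V) (act g W)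
  act_cofinite : ∃ F : Set Idx, F.Finite ∧ ∀ W, ∃ g, ∃ V ∈ F, act g V = W
  iso : (g : G) → (W : Idx) → (C W ≃ C (act g W))
  iso_adj : ∀ g W p q, (graph W).Adj p q ↔ (graph (act g W)).Adj (iso g W p) (iso g W q)
  iso_one : ∀ W p, HEq (iso 1 W p) p
  iso_mul : ∀ g h W p, HEq (iso (g * h) W p) (iso g (act h W) (iso h W p))
  proj_equivariant : ∀ g W x, proj (act g W) (g * x) = iso g W '' proj W x
  rho_equivariant : ∀ g V W, (nest V W ∧ V ≠ W) ∨ (¬ orth V W ∧ ¬ nest V W ∧ ¬ nest W V) →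
    rho (act g V) (act g W) = iso g W '' rho V W
  rhoMap_equivariant : ∀ g V W, nest V W → V ≠ W → ∀ w,
    rhoMap (act g W) (act g V) (iso g W w) = iso g V '' rhoMap W V w

theorem setDist_singleton {V : Type} (Γ : SimpleGraph V) (p q : V) :
    setDist Γ {p} {q} = Γ.dist p q := by
  unfold setDist
  have : {r : ℝ | ∃ p' ∈ ({p} : Set V), ∃ q' ∈ ({q} : Set V), r = (Γ.dist p' q' : ℝ)} =
      {(Γ.dist p q : ℝ)} := by
    ext r
    simp
  rw [this, csInf_singleton]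

theorem setDist_le {V : Type} {Γ : SimpleGraph V} {A B : Set V} {p q : V} (hp : p ∈ A)
    (hq : q ∈ B) : setDist Γ A B ≤ Γ.dist p q := by
  apply csInf_le
  · exact ⟨0, by rintro r ⟨_, _, _, _, rfl⟩; positivity⟩
  · exact ⟨p, hp, q, hq, rfl⟩

theorem setDist_nonneg {V : Type} (Γ : SimpleGraph V) (A B : Set V) : 0 ≤ setDist Γ A B := by
  apply Real.sInf_nonneg
  rintro r ⟨_, _, _, _, rfl⟩
  positivity

end Pool.Agent.H290R3.HHGDefs
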