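import Mathlib
import Pool.Agent.H290R3.HHG.QGroup

set_option autoImplicit false

namespace Pool.Agent.H290R3.HHG

open Quaternion

def chk (l : ℕ) (A : List (ℤ × ℤ × ℤ × ℤ)) : Prop :=
  ∀ a b c d : ZMod l, (a ≠ 0 ∨ b ≠ 0 ∨ c ≠ 0 ∨ d ≠ 0) → a * a + b * b + c * c + d * d = 0 →
    ∃ t ∈ A, a * (t.1 : ZMod l) + b * (t.2.1 : ZMod l) + c * (t.2.2.1 : ZMod l)
        + d * (t.2.2.2 : ZMod l) = 0 ∧
      -(a * (t.2.1 : ZMod l)) + b * (t.1 : ZMod l) - c * (t.2.2.2 : ZMod l)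
        + d * (t.2.2.1 : ZMod l) = 0 ∧
      -(a * (t.2.2.1 : ZMod l)) + b * (t.2.2.2 : ZMod l) + c * (t.1 : ZMod l)
        - d * (t.2.1 : ZMod l) = 0 ∧
      -(a * (t.2.2.2 : ZMod l)) - b * (t.2.2.1 : ZMod l) + c * (t.2.1 : ZMod l)
        + d * (t.1 : ZMod l) = 0

def A3 : List (ℤ × ℤ × ℤ × ℤ) := [(1,1,1,0),(1,-1,1,0),(1,1,-1,0),(1,-1,-1,0)]
def A5 : List (ℤ × ℤ × ℤ × ℤ) := [(1,2,0,0),(1,-2,0,0),(1,0,2,0),(1,0,-2,0),(1,0,0,2),(1,0,0,-2)]

theorem chk3 : chk 3 A3 := by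
  unfold chk A3
  decide +kernel

theorem chk5 : chk 5 A5 := by
  unfold chk A5
  decide +kernel

theorem factor_aux (l : ℕ) (hl : (l : ℤ) ≠ 0) (A : List (ℤ × ℤ × ℤ × ℤ)) (hA : chk l A)
    (hN : ∀ t ∈ A, t.1 ^ 2 + t.2.1 ^ 2 + t.2.2.1 ^ 2 + t.2.2.2 ^ 2 = (l : ℤ))
    (x : ℍ[ℤ]) (hx : ¬ QDvd l x) (hd : (l : ℤ) ∣ normSq x) :
    ∃ a x' : ℍ[ℤ], normSq a = l ∧ x = x' * a := by
  have h1 : ((x.re : ℤ) : ZMod l) ≠ 0 ∨ ((x.imI : ℤ) : ZMod l) ≠ 0 ∨
      ((x.imJ : ℤ) : ZMod l) ≠ 0 ∨ ((x.imK : ℤ) : ZMod l) ≠ 0 := by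
    by_contra hcon
    push Not at hcon
    apply hx
    obtain ⟨c1, c2, c3, c4⟩ := hcon
    rw [ZMod.intCast_zmod_eq_zero_iff_dvd] at c1 c2 c3 c4
    exact ⟨c1, c2, c3, c4⟩
  have h2 : ((x.re : ℤ) : ZMod l) * ((x.re : ℤ) : ZMod l) +
      ((x.imI : ℤ) : ZMod l) * ((x.imI : ℤ) : ZMod l) +
      ((x.imJ : ℤ) : ZMod l) * ((x.imJ : ℤ) : ZMod l) +
      ((x.imK : ℤ) : ZMod l) * ((x.imK : ℤ) : ZMod l) = 0 := by
    rw [normSq_def', ← ZMod.intCast_zmod_eq_zero_iff_dvd] at hd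
    push_cast at hd
    rw [← hd]; ring
  obtain ⟨t, ht, e1, e2, e3, e4⟩ := hA _ _ _ _ h1 h2
  set a : ℍ[ℤ] := qmk t.1 t.2.1 t.2.2.1 t.2.2.2 with ha
  have haN : normSq a = l := by
    rw [normSq_def', ha]
    exact hN t ht
  have hdv : QDvd l (x * star a) := by
    refine ⟨?_, ?_, ?_, ?_⟩
    · rw [← ZMod.intCast_zmod_eq_zero_iff_dvd, re_mul, ha]
      simp only [re_star, imI_star, imJ_star, imK_star, qmk_re, qmk_imI, qmk_imJ, qmk_imK]
      push_cast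
      rw [← e1]; ring
    · rw [← ZMod.intCast_zmod_eq_zero_iff_dvd, imI_mul, ha]
      simp only [re_star, imI_star, imJ_star, imK_star, qmk_re, qmk_imI, qmk_imJ, qmk_imK]
      push_cast
      rw [← e2]; ring
    · rw [← ZMod.intCast_zmod_eq_zero_iff_dvd, imJ_mul, ha]
      simp only [re_star, imI_star, imJ_star, imK_star, qmk_re, qmk_imI, qmk_imJ, qmk_imK]
      push_cast
      rw [← e3]; ring
    · rw [← ZMod.intCast_zmod_eq_zero_iff_dvd, imK_mul, ha]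
      simp only [re_star, imI_star, imJ_star, imK_star, qmk_re, qmk_imI, qmk_imJ, qmk_imK]
      push_cast
      rw [← e4]; ring
  obtain ⟨x', hx'⟩ := qdvd_iff.mp hdv
  refine ⟨a, x', haN, ?_⟩
  apply smul_cancel hl
  rw [← smul_mul_assoc, ← hx', mul_assoc, star_mul_self, haN]
  ext
  · simp [mul_comm]
  · simp [mul_comm]
  · simp [mul_comm]
  · simp [mul_comm]

theorem factor {l : ℕ} (hl : l = 3 ∨ l = 5) (x : ℍ[ℤ]) (hx : ¬ QDvd l x)
    (hd : (l : ℤ) ∣ normSq x) : ∃ a x' : ℍ[ℤ], normSq a = l ∧ x = x' * a := by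
  rcases hl with rfl | rfl
  · exact factor_aux 3 (by norm_num) A3 chk3 (by unfold A3; decide) x hx hd
  · exact factor_aux 5 (by norm_num) A5 chk5 (by unfold A5; decide) x hx hd

theorem mem_PM_of_normSq {l : ℕ} (hl : l = 3 ∨ l = 5) {a : ℍ[ℤ]} (ha : normSq a = l) : a ∈ PM := by
  refine ⟨1, ?_⟩
  rw [ha]
  rcases hl with rfl | rfl
  · exact ⟨5, by norm_num⟩
  · exact ⟨3, by norm_num⟩

theorem prime_of {l : ℕ} (hl : l = 3 ∨ l = 5) : l.Prime := by
  rcases hl with rfl | rfl <;> norm_num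

theorem val_eq_one {l : ℕ} (hl : l = 3 ∨ l = 5) {a : ℍ[ℤ]} (ha : normSq a = l) :
    val l a = 1 := by
  have : Fact l.Prime := ⟨prime_of hl⟩
  unfold val
  rw [ha]
  simp [padicValInt]

/-- Splitting off all factors of norm `l` on the right. -/
theorem chain {l : ℕ} (hl : l = 3 ∨ l = 5) (n : ℕ) : ∀ x : PM, ¬ QDvd l (x : ℍ[ℤ]) →
    val l x = n → ∃ (x' : PM) (L : List PM), L.length = n ∧
      (∀ a ∈ L, normSq (a : ℍ[ℤ]) = l) ∧ x = x' * L.prod ∧ val l x' = 0 := by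
  have : Fact l.Prime := ⟨prime_of hl⟩
  induction n with
  | zero =>
    intro x _ hv
    exact ⟨x, [], rfl, by simp, by simp, hv⟩
  | succ n ih =>
    intro x hx hv
    have hd : (l : ℤ) ∣ normSq (x : ℍ[ℤ]) := by
      by_contra hcon
      have := padicValInt.eq_zero_of_not_dvd hcon
      unfold val at hv
      omega
    obtain ⟨a, y, ha, hxy⟩ := factor hl _ hx hd
    have haP := mem_PM_of_normSq hl ha
    have hyP : y ∈ PM := PM_of_dvd x.2 (by rw [hxy, map_mul]; exact Dvd.intro _ rfl)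
    have hv' : val l y = n := by
      have h1 : val l (x : ℍ[ℤ]) = val l y + val l a := by rw [hxy, val_mul hyP haP]
      rw [val_eq_one hl ha] at h1
      omega
    have hy : ¬ QDvd l y := by
      intro h
      apply hx
      rw [hxy]
      exact h.mul_right a
    obtain ⟨x', L, h1, h2, h3, h4⟩ := ih ⟨y, hyP⟩ hy hv'
    refine ⟨x', L ++ [⟨a, haP⟩], by simp [h1], ?_, ?_, h4⟩
    · intro b hb
      rw [List.mem_append, List.mem_singleton] at hb
      rcases hb with hb | rfl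
      · exact h2 b hb
      · exact ha
    · rw [List.prod_append, List.prod_singleton, ← mul_assoc, ← h3]
      apply Subtype.ext
      exact hxy

/-- The trace argument. -/
theorem trace_step {l : ℕ} (hl : l = 3 ∨ l = 5) (m : ℕ) {x y z : ℍ[ℤ]} (hy : ¬ QDvd l y)
    (h1 : QDvd ((l : ℤ) ^ m) (star x * y)) (h2 : QDvd ((l : ℤ) ^ m) (star y * z)) :
    QDvd ((l : ℤ) ^ m) (star x * z) := by
  have key : ∀ b : ℍ[ℤ], QDvd ((l : ℤ) ^ m) ((2 * (y * b).re) • (star x * z)) := by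
    intro b
    have e : (2 * (y * b).re) • (star x * z) =
        (star x * y) * (b * z) + (star x * star b) * (star y * z) := by
      have h3 : y * b + star b * star y = (2 * (y * b).re) • (1 : ℍ[ℤ]) := by
        rw [← star_mul]
        ext
        · rw [re_add, re_star, re_smul, re_one, smul_eq_mul]; ring
        · rw [imI_add, imI_star, imI_smul, imI_one, smul_eq_mul]; ring
        · rw [imJ_add, imJ_star, imJ_smul, imJ_one, smul_eq_mul]; ring
        · rw [imK_add, imK_star, imK_smul, imK_one, smul_eq_mul]; ring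
      have h4 : (star x * y) * (b * z) + (star x * star b) * (star y * z) =
          star x * (y * b + star b * star y) * z := by
        noncomm_ring
      rw [h4, h3, mul_smul_comm, mul_one, smul_mul_assoc]
    rw [e]
    exact (h1.mul_right _).add (h2.mul_left _)
  have hcop : ∀ c : ℤ, ¬ (l : ℤ) ∣ c → ∀ w : ℍ[ℤ], QDvd ((l : ℤ) ^ m) ((2 * c) • w) →
      QDvd ((l : ℤ) ^ m) w := by
    intro c hc w hw
    have hp : Prime (l : ℤ) := Nat.prime_iff_prime_int.mp (prime_of hl)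
    have h2 : ¬ (l : ℤ) ∣ 2 := by
      rcases hl with rfl | rfl <;> norm_num
    have h3 : ¬ (l : ℤ) ∣ 2 * c := by
      intro h
      rcases hp.dvd_or_dvd h with h | h
      · exact h2 h
      · exact hc h
    have h4 : IsCoprime ((l : ℤ) ^ m) (2 * c) := by
      apply IsCoprime.pow_left
      exact (Prime.coprime_iff_not_dvd hp).mpr h3
    obtain ⟨g1, g2, g3, g4⟩ := hw
    simp only [re_smul, imI_smul, imJ_smul, imK_smul, smul_eq_mul] at g1 g2 g3 g4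
    exact ⟨h4.dvd_of_dvd_mul_left g1, h4.dvd_of_dvd_mul_left g2, h4.dvd_of_dvd_mul_left g3,
      h4.dvd_of_dvd_mul_left g4⟩
  unfold QDvd at hy
  by_cases c1 : (l : ℤ) ∣ y.re
  · by_cases c2 : (l : ℤ) ∣ y.imI
    · by_cases c3 : (l : ℤ) ∣ y.imJ
      · by_cases c4 : (l : ℤ) ∣ y.imK
        · exact absurd ⟨c1, c2, c3, c4⟩ hy
        · refine hcop y.imK c4 _ ?_
          have := key (qmk 0 0 0 (-1))
          have e : (y * qmk 0 0 0 (-1)).re = y.imK := by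
            rw [re_mul]; simp
          rwa [e] at this
      · refine hcop y.imJ c3 _ ?_
        have := key (qmk 0 0 (-1) 0)
        have e : (y * qmk 0 0 (-1) 0).re = y.imJ := by
          rw [re_mul]; simp
        rwa [e] at this
    · refine hcop y.imI c2 _ ?_
      have := key (qmk 0 (-1) 0 0)
      have e : (y * qmk 0 (-1) 0 0).re = y.imI := by
        rw [re_mul]; simp
      rwa [e] at this
  · refine hcop y.re c1 _ ?_
    have := key (qmk 1 0 0 0)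
    have e : (y * qmk 1 0 0 0).re = y.re := by
      rw [re_mul]; simp
    rwa [e] at this

theorem val_smul {l : ℕ} [Fact l.Prime] (m : ℕ) {w : ℍ[ℤ]} (hw : normSq w ≠ 0) :
    val l (((l : ℤ) ^ m) • w) = 2 * m + val l w := by
  have hl0 : (l : ℤ) ≠ 0 := by exact_mod_cast (Fact.out : l.Prime).ne_zero
  have hp : ∀ k : ℕ, padicValInt l ((l : ℤ) ^ k) = k := by
    intro k
    induction k with
    | zero => simp
    | succ k ih =>
      rw [pow_succ, padicValInt.mul (pow_ne_zero _ hl0) hl0, ih]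
      simp [padicValInt]
  unfold val
  rw [normSq_smul', padicValInt.mul (pow_ne_zero 2 (pow_ne_zero m hl0)) hw, ← pow_mul, hp]
  ring

theorem rr_add_le {l : ℕ} (hl : l = 3 ∨ l = 5) {w : PM} {m : ℕ}
    (h : QDvd ((l : ℤ) ^ m) (w : ℍ[ℤ])) : rr l (cl w) + 2 * m ≤ val l w := by
  have : Fact l.Prime := ⟨prime_of hl⟩
  have hl0 : (l : ℤ) ≠ 0 := by exact_mod_cast (Fact.out : l.Prime).ne_zero
  obtain ⟨y, hy⟩ := qdvd_iff.mp h
  have hN : normSq (w : ℍ[ℤ]) = ((l : ℤ) ^ m) ^ 2 * normSq y := by rw [hy, normSq_smul']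
  have hyP : y ∈ PM := PM_of_dvd w.2 (hN ▸ Dvd.intro_left _ rfl)
  have hcl : cl ⟨y, hyP⟩ = cl w := by
    rw [cl_eq_iff]
    exact ⟨(l : ℤ) ^ m, 1, pow_ne_zero _ hl0, one_ne_zero, by rw [one_smul]; exact hy.symm⟩
  have h1 : rr l (cl w) ≤ val l y := by
    rw [← hcl]; exact rr_le
  have h2 : val l w = 2 * m + val l y := by
    rw [hy]; exact val_smul m (PM_normSq_ne_zero hyP)
  omega

theorem exists_content {l : ℕ} (hl : l = 3 ∨ l = 5) (w : PM) :
    ∃ m : ℕ, QDvd ((l : ℤ) ^ m) (w : ℍ[ℤ]) ∧ rr l (cl w) + 2 * m = val l w := by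
  have : Fact l.Prime := ⟨prime_of hl⟩
  have hl0 : (l : ℤ) ≠ 0 := by exact_mod_cast (Fact.out : l.Prime).ne_zero
  -- maximal m
  have hex : ∃ m, QDvd ((l : ℤ) ^ m) (w : ℍ[ℤ]) ∧ ¬ QDvd ((l : ℤ) ^ (m + 1)) (w : ℍ[ℤ]) := by
    by_contra hcon
    push Not at hcon
    have hall : ∀ m, QDvd ((l : ℤ) ^ m) (w : ℍ[ℤ]) := by
      intro m
      induction m with
      | zero => exact ⟨by simp, by simp, by simp, by simp⟩
      | succ m ih => exact hcon m ih
    have := rr_add_le hl (hall (val l w + 1))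
    omega
  obtain ⟨m, hm1, hm2⟩ := hex
  refine ⟨m, hm1, ?_⟩
  obtain ⟨y, hy⟩ := qdvd_iff.mp hm1
  have hN : normSq (w : ℍ[ℤ]) = ((l : ℤ) ^ m) ^ 2 * normSq y := by rw [hy, normSq_smul']
  have hyP : y ∈ PM := PM_of_dvd w.2 (hN ▸ Dvd.intro_left _ rfl)
  have hcl : cl ⟨y, hyP⟩ = cl w := by
    rw [cl_eq_iff]
    exact ⟨(l : ℤ) ^ m, 1, pow_ne_zero _ hl0, one_ne_zero, by rw [one_smul]; exact hy.symm⟩
  have hyd : ¬ QDvd l y := by
    intro h
    apply hm2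
    obtain ⟨z, hz⟩ := qdvd_iff.mp h
    apply qdvd_iff.mpr
    exact ⟨z, by rw [hy, hz, smul_smul, pow_succ]⟩
  have h1 : rr l (cl w) = val l y := by
    rw [← hcl]
    exact rr_eq_val (x := ⟨y, hyP⟩) hyd
  have h2 : val l w = 2 * m + val l y := by
    rw [hy]; exact val_smul m (PM_normSq_ne_zero hyP)
  omega

theorem exists_rep {l : ℕ} (hl : l = 3 ∨ l = 5) (g : QG) :
    ∃ x : PM, cl x = g ∧ ¬ QDvd l (x : ℍ[ℤ]) ∧ rr l g = val l x := by
  have : Fact l.Prime := ⟨prime_of hl⟩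
  obtain ⟨x, hx, h3, h5⟩ := exists_prim g
  have h : ¬ QDvd l (x : ℍ[ℤ]) := by
    rcases hl with rfl | rfl
    · exact h3
    · exact h5
  exact ⟨x, hx, h, by rw [← hx]; exact rr_eq_val h⟩

/-- Gromov product inequality based at the identity. -/
theorem gromov_one {l : ℕ} (hl : l = 3 ∨ l = 5) (g h k : QG) :
    rr l (g⁻¹ * k) + rr l h ≤
      max (rr l (g⁻¹ * h) + rr l k) (rr l (h⁻¹ * k) + rr l g) := by
  have : Fact l.Prime := ⟨prime_of hl⟩
  obtain ⟨x, rfl, hx, hxv⟩ := exists_rep hl g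
  obtain ⟨y, rfl, hy, hyv⟩ := exists_rep hl h
  obtain ⟨z, rfl, hz, hzv⟩ := exists_rep hl k
  rw [hxv, hyv, hzv]
  have e : ∀ a b : PM, (cl a)⁻¹ * cl b = cl (starP a * b) := by
    intro a b; rw [cl_inv, ← cl_mul]
  have ev : ∀ a b : PM, val l ((starP a * b : PM) : ℍ[ℤ]) = val l a + val l b := by
    intro a b
    rw [Submonoid.coe_mul, val_mul (starP a).2 b.2]
    congr 1
    exact val_star _
  rw [e, e, e]
  obtain ⟨m1, hm1, hm1'⟩ := exists_content hl (starP x * y)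
  obtain ⟨m2, hm2, hm2'⟩ := exists_content hl (starP y * z)
  rw [ev] at hm1' hm2'
  have hpow : ∀ (a b : ℕ) (w : ℍ[ℤ]), a ≤ b → QDvd ((l : ℤ) ^ b) w → QDvd ((l : ℤ) ^ a) w := by
    intro a b w hab hw
    have := pow_dvd_pow (l : ℤ) hab
    exact ⟨this.trans hw.1, this.trans hw.2.1, this.trans hw.2.2.1, this.trans hw.2.2.2⟩
  have h3 := trace_step hl (min m1 m2) (x := x) (y := y) (z := z) hy
    (hpow _ _ _ (min_le_left _ _) hm1) (hpow _ _ _ (min_le_right _ _) hm2)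
  have h4 := rr_add_le hl (w := starP x * z) h3
  rw [ev] at h4
  rcases le_total m1 m2 with h5 | h5
  · rw [min_eq_left h5] at h4
    apply le_max_of_le_left
    omega
  · rw [min_eq_right h5] at h4
    apply le_max_of_le_right
    omega

/-- Four point condition for the tree pseudo-distance. -/
theorem four_point {l : ℕ} (hl : l = 3 ∨ l = 5) (w x y z : QG) :
    rr l (x⁻¹ * z) + rr l (w⁻¹ * y) ≤
      max (rr l (x⁻¹ * y) + rr l (w⁻¹ * z)) (rr l (y⁻¹ * z) + rr l (w⁻¹ * x)) := by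
  have h := gromov_one hl (w⁻¹ * x) (w⁻¹ * y) (w⁻¹ * z)
  have e : ∀ a b : QG, (w⁻¹ * a)⁻¹ * (w⁻¹ * b) = a⁻¹ * b := by
    intro a b; group
  rwa [e, e, e] at h

end Pool.Agent.H290R3.HHG
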