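import Mathlib
import Pool.Agent.H290R3.HHG.QTree
import Pool.Agent.H290R3.HHG.Defs

set_option autoImplicit false

namespace Pool.Agent.H290R3.HHG

open Quaternion Pool.Agent.H290R3.HHGDefs

/-- generating set -/
def gens : Set QG := {g | ∃ x : PM, cl x = g ∧ (normSq (x : ℍ[ℤ]) = 1 ∨
  normSq (x : ℍ[ℤ]) = 3 ∨ normSq (x : ℍ[ℤ]) = 5)}

theorem gens_finite : gens.Finite := by
  classical
  let box : Finset (ℤ × ℤ × ℤ × ℤ) :=
    (Finset.Icc (-2) 2) ×ˢ (Finset.Icc (-2) 2) ×ˢ (Finset.Icc (-2) 2) ×ˢ (Finset.Icc (-2) 2)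
  let f : ℤ × ℤ × ℤ × ℤ → QG := fun t =>
    if h : qmk t.1 t.2.1 t.2.2.1 t.2.2.2 ∈ PM then cl ⟨_, h⟩ else 1
  apply Set.Finite.subset (box.image f).finite_toSet
  rintro g ⟨x, rfl, hx⟩
  rw [Finset.mem_coe, Finset.mem_image]
  refine ⟨((x : ℍ[ℤ]).re, (x : ℍ[ℤ]).imI, (x : ℍ[ℤ]).imJ, (x : ℍ[ℤ]).imK), ?_, ?_⟩
  · have hN : normSq (x : ℍ[ℤ]) ≤ 5 := by rcases hx with h | h | h <;> rw [h] <;> norm_num
    rw [normSq_def'] at hN
    have hb : ∀ a b c d : ℤ, a ^ 2 + b ^ 2 + c ^ 2 + d ^ 2 ≤ 5 → -2 ≤ a ∧ a ≤ 2 := by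
      intro a b c d h
      constructor <;> nlinarith [sq_nonneg b, sq_nonneg c, sq_nonneg d]
    simp only [box, Finset.mem_product, Finset.mem_Icc]
    refine ⟨hb _ _ _ _ hN, hb (x : ℍ[ℤ]).imI (x : ℍ[ℤ]).re (x : ℍ[ℤ]).imJ (x : ℍ[ℤ]).imK ?_,
      hb (x : ℍ[ℤ]).imJ (x : ℍ[ℤ]).re (x : ℍ[ℤ]).imI (x : ℍ[ℤ]).imK ?_,
      hb (x : ℍ[ℤ]).imK (x : ℍ[ℤ]).re (x : ℍ[ℤ]).imI (x : ℍ[ℤ]).imJ ?_⟩ <;> linarith
  · have e : qmk (x : ℍ[ℤ]).re (x : ℍ[ℤ]).imI (x : ℍ[ℤ]).imJ (x : ℍ[ℤ]).imK = (x : ℍ[ℤ]) := by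
      ext <;> rfl
    simp only [f]
    rw [dif_pos (by rw [e]; exact x.2)]
    congr 1

instance fact3 : Fact (Nat.Prime 3) := ⟨by norm_num⟩
instance fact5 : Fact (Nat.Prime 5) := ⟨by norm_num⟩

theorem val_of_norm {l n : ℕ} {x : ℍ[ℤ]} (h : normSq x = (n : ℤ)) (hn : ¬ l ∣ n) :
    val l x = 0 := by
  unfold val
  rw [h]
  apply padicValInt.eq_zero_of_not_dvd
  intro hd
  exact hn (by exact_mod_cast hd)

theorem rr_gens {g : QG} (hg : g ∈ gens ∨ g⁻¹ ∈ gens) : rr 3 g + rr 5 g ≤ 1 := by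
  have key : ∀ g ∈ gens, rr 3 g + rr 5 g ≤ 1 := by
    rintro g ⟨x, rfl, hx⟩
    have h3 : rr 3 (cl x) ≤ val 3 x := rr_le
    have h5 : rr 5 (cl x) ≤ val 5 x := rr_le
    rcases hx with h | h | h
    · have e3 := val_of_norm (l := 3) (n := 1) (by exact_mod_cast h) (by norm_num)
      have e5 := val_of_norm (l := 5) (n := 1) (by exact_mod_cast h) (by norm_num)
      omega
    · have e3 := val_eq_one (l := 3) (Or.inl rfl) (by exact_mod_cast h)
      have e5 := val_of_norm (l := 5) (n := 3) (by exact_mod_cast h) (by norm_num)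
      omega
    · have e3 := val_of_norm (l := 3) (n := 5) (by exact_mod_cast h) (by norm_num)
      have e5 := val_eq_one (l := 5) (Or.inr rfl) (by exact_mod_cast h)
      omega
  rcases hg with h | h
  · exact key g h
  · have := key _ h
    rwa [rr_inv, rr_inv] at this

theorem rr_list {l : List QG} (h : ∀ x ∈ l, x ∈ gens ∨ x⁻¹ ∈ gens) :
    rr 3 l.prod + rr 5 l.prod ≤ l.length := by
  induction l with
  | nil => simp [rr_one]
  | cons a l ih =>
    rw [List.prod_cons, List.length_cons]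
    have h1 := rr_mul 3 a l.prod
    have h2 := rr_mul 5 a l.prod
    have h3 := rr_gens (h a (by simp))
    have h4 := ih (fun x hx => h x (by simp [hx]))
    omega

theorem normSq_eq_one_of_val {x : ℍ[ℤ]} (hx : x ∈ PM) (h3 : val 3 x = 0) (h5 : val 5 x = 0) :
    normSq x = 1 := by
  obtain ⟨k, hk⟩ := hx
  have h0 := PM_normSq_ne_zero (x := x) ⟨k, hk⟩
  have nd : ∀ l : ℕ, Fact l.Prime → val l x = 0 → ¬ (l : ℤ) ∣ normSq x := by
    intro l hl hv hd
    have h1 : 1 ≤ padicValInt l (normSq x) := by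
      have := (padicValInt_dvd_iff (p := l) 1 (normSq x)).mp (by simpa using hd)
      rcases this with h | h
      · exact absurd h h0
      · exact h
    unfold val at hv
    omega
  have c3 : IsCoprime (normSq x) 3 := by
    have hp : Prime (3 : ℤ) := by norm_num
    exact ((Prime.coprime_iff_not_dvd hp).mpr (nd 3 fact3 h3)).symm
  have c5 : IsCoprime (normSq x) 5 := by
    have hp : Prime (5 : ℤ) := by norm_num
    exact ((Prime.coprime_iff_not_dvd hp).mpr (nd 5 fact5 h5)).symm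
  have c15 : IsCoprime (normSq x) (15 ^ k) := by
    apply IsCoprime.pow_right
    have : (15 : ℤ) = 3 * 5 := by norm_num
    rw [this]
    exact c3.mul_right c5
  have hu : IsUnit (normSq x) := c15.isUnit_of_dvd' dvd_rfl hk
  rcases Int.isUnit_iff.mp hu with h | h
  · exact h
  · have := normSq_nonneg' x
    omega

/-- Full factorization of a group element into generators. -/
theorem factorization (g : QG) : ∃ (u : PM) (L5 L3 : List PM), normSq (u : ℍ[ℤ]) = 1 ∧
    (∀ a ∈ L5, normSq (a : ℍ[ℤ]) = 5) ∧ (∀ a ∈ L3, normSq (a : ℍ[ℤ]) = 3) ∧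
    L5.length = rr 5 g ∧ L3.length = rr 3 g ∧ g = cl u * (cl L5.prod * cl L3.prod) := by
  obtain ⟨x, rfl, h3, h5⟩ := exists_prim g
  obtain ⟨x', L3, a1, a2, a3, a4⟩ := chain (l := 3) (Or.inl rfl) _ x h3 rfl
  have h5' : ¬ QDvd ((5 : ℕ) : ℤ) (x' : ℍ[ℤ]) := by
    intro h
    apply h5
    rw [a3, Submonoid.coe_mul]
    exact h.mul_right _
  obtain ⟨u, L5, b1, b2, b3, b4⟩ := chain (l := 5) (Or.inr rfl) _ x' h5' rfl
  have hu3 : val 3 u = 0 := by
    have : val 3 (x' : ℍ[ℤ]) = val 3 u + val 3 (L5.prod : PM) := by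
      rw [b3, Submonoid.coe_mul, val_mul u.2 (L5.prod).2]
    omega
  have hu : normSq (u : ℍ[ℤ]) = 1 := normSq_eq_one_of_val u.2 hu3 b4
  have hL3 : val 5 (L3.prod : PM) = 0 := by
    have : ∀ L : List PM, (∀ a ∈ L, normSq (a : ℍ[ℤ]) = 3) → val 5 (L.prod : PM) = 0 := by
      intro L
      induction L with
      | nil => intro _; rw [List.prod_nil, Submonoid.coe_one, val_one]
      | cons a L ih =>
        intro h
        rw [List.prod_cons, Submonoid.coe_mul, val_mul a.2 (L.prod).2, ih (fun b hb => h b (by simp [hb]))]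
        have := val_of_norm (l := 5) (n := 3) (by exact_mod_cast h a (by simp)) (by norm_num)
        omega
    exact this L3 (fun a ha => by exact_mod_cast a2 a ha)
  refine ⟨u, L5, L3, hu, fun a ha => by exact_mod_cast b2 a ha, fun a ha => by exact_mod_cast a2 a ha,
    ?_, ?_, ?_⟩
  · rw [b1]
    have e1 : rr 5 (cl x) = val 5 x := rr_eq_val h5
    rw [e1]
    have : val 5 (x : ℍ[ℤ]) = val 5 x' + val 5 (L3.prod : PM) := by
      rw [a3, Submonoid.coe_mul, val_mul x'.2 (L3.prod).2]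
    omega
  · rw [a1]
    exact (rr_eq_val h3).symm
  · rw [← cl_mul, ← cl_mul, a3, b3, mul_assoc]

theorem cl_list_prod (L : List PM) : cl L.prod = (L.map cl).prod := by
  induction L with
  | nil => rw [List.prod_nil, List.map_nil, List.prod_nil, cl_one]
  | cons a L ih => rw [List.prod_cons, cl_mul, ih, List.map_cons, List.prod_cons]

theorem exists_gen_list (g : QG) : ∃ L : List QG, L.length = rr 3 g + rr 5 g + 1 ∧
    (∀ x ∈ L, x ∈ gens) ∧ L.prod = g := by
  obtain ⟨u, L5, L3, hu, h5, h3, l5, l3, hg⟩ := factorization g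
  refine ⟨cl u :: (L5.map cl ++ L3.map cl), ?_, ?_, ?_⟩
  · rw [List.length_cons, List.length_append, List.length_map, List.length_map]; omega
  · intro x hx
    rw [List.mem_cons, List.mem_append, List.mem_map, List.mem_map] at hx
    rcases hx with rfl | ⟨a, ha, rfl⟩ | ⟨a, ha, rfl⟩
    · exact ⟨u, rfl, Or.inl hu⟩
    · exact ⟨a, rfl, Or.inr (Or.inr (h5 a ha))⟩
    · exact ⟨a, rfl, Or.inr (Or.inl (h3 a ha))⟩
  · rw [List.prod_cons, List.prod_append, ← cl_list_prod, ← cl_list_prod]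
    exact hg.symm

theorem closure_gens : Subgroup.closure gens = ⊤ := by
  rw [eq_top_iff]
  intro g _
  obtain ⟨L, _, h2, rfl⟩ := exists_gen_list g
  exact Subgroup.list_prod_mem _ (fun x hx => Subgroup.subset_closure (h2 x hx))

theorem wordLen_le (g : QG) : wordLen gens g ≤ rr 3 g + rr 5 g + 1 := by
  obtain ⟨L, h1, h2, h3⟩ := exists_gen_list g
  exact Nat.sInf_le ⟨L, h1, fun x hx => Or.inl (h2 x hx), h3⟩

theorem le_wordLen (g : QG) : rr 3 g + rr 5 g ≤ wordLen gens g := by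
  obtain ⟨L0, h1, h2, h3⟩ := exists_gen_list g
  obtain ⟨l, hl1, hl2, hl3⟩ := Nat.sInf_mem (s := {n | ∃ l : List QG, l.length = n ∧
    (∀ x ∈ l, x ∈ gens ∨ x⁻¹ ∈ gens) ∧ l.prod = g})
    ⟨_, L0, h1, fun x hx => Or.inl (h2 x hx), h3⟩
  have := rr_list hl2
  rw [hl3, hl1] at this
  exact this

theorem wordLen_list_le {L : List QG} (h : ∀ x ∈ L, x ∈ gens) :
    wordLen gens L.prod ≤ L.length :=
  Nat.sInf_le ⟨L, rfl, fun x hx => Or.inl (h x hx), rfl⟩

/-- The graph quasi-isometric to the `l`-adic tree. -/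
def tg (l : ℕ) : SimpleGraph QG where
  Adj x y := x ≠ y ∧ rr l (x⁻¹ * y) ≤ 1
  symm := ⟨by
    rintro x y ⟨h1, h2⟩
    refine ⟨h1.symm, ?_⟩
    rw [← rr_inv] at h2
    simpa using h2⟩
  loopless := ⟨fun x h => h.1 rfl⟩

theorem walk_of_list (l : ℕ) (L : List QG) (h : ∀ a ∈ L, rr l a ≤ 1) :
    ∀ p : QG, ∃ w : (tg l).Walk p (p * L.prod), w.length ≤ L.length := by
  induction L with
  | nil =>
    intro p
    rw [List.prod_nil, mul_one]
    exact ⟨SimpleGraph.Walk.nil, by simp⟩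
  | cons a L ih =>
    intro p
    by_cases ha : a = 1
    · subst ha
      obtain ⟨w, hw⟩ := ih (fun b hb => h b (by simp [hb])) p
      rw [List.prod_cons, one_mul]
      exact ⟨w, by rw [List.length_cons]; omega⟩
    · obtain ⟨w, hw⟩ := ih (fun b hb => h b (by simp [hb])) (p * a)
      rw [List.prod_cons, ← mul_assoc]
      have hadj : (tg l).Adj p (p * a) := by
        refine ⟨fun he => ha ?_, ?_⟩
        · exact (mul_eq_left.mp he.symm)
        · rw [inv_mul_cancel_left]; exact h a (by simp)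
      exact ⟨SimpleGraph.Walk.cons hadj w, by
        rw [SimpleGraph.Walk.length_cons, List.length_cons]; omega⟩

theorem exists_list_rr {l : ℕ} (hl : l = 3 ∨ l = 5) (g : QG) : ∃ L : List QG,
    L.length = rr l g + 1 ∧ (∀ a ∈ L, rr l a ≤ 1) ∧ L.prod = g := by
  have : Fact l.Prime := ⟨prime_of hl⟩
  obtain ⟨x, rfl, hx, hxv⟩ := exists_rep hl g
  obtain ⟨x', L, a1, a2, a3, a4⟩ := chain hl _ x hx rfl
  refine ⟨cl x' :: L.map cl, ?_, ?_, ?_⟩
  · rw [List.length_cons, List.length_map, a1, hxv]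
  · intro a ha
    rw [List.mem_cons, List.mem_map] at ha
    rcases ha with rfl | ⟨b, hb, rfl⟩
    · have : rr l (cl x') ≤ val l x' := rr_le
      omega
    · have h1 : rr l (cl b) ≤ val l b := rr_le
      rw [val_eq_one hl (a2 b hb)] at h1
      exact h1
  · rw [List.prod_cons, ← cl_list_prod, ← cl_mul, ← a3]

theorem tg_connected {l : ℕ} (hl : l = 3 ∨ l = 5) : (tg l).Connected := by
  rw [SimpleGraph.connected_iff]
  refine ⟨fun p q => ?_, ⟨1⟩⟩
  obtain ⟨L, h1, h2, h3⟩ := exists_list_rr hl (p⁻¹ * q)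
  have h4 := walk_of_list l L h2 p
  rw [h3, mul_inv_cancel_left] at h4
  obtain ⟨w, _⟩ := h4
  exact ⟨w⟩

theorem dist_le_rr {l : ℕ} (hl : l = 3 ∨ l = 5) (p q : QG) :
    (tg l).dist p q ≤ rr l (p⁻¹ * q) + 1 := by
  obtain ⟨L, h1, h2, h3⟩ := exists_list_rr hl (p⁻¹ * q)
  have h4 := walk_of_list l L h2 p
  rw [h3, mul_inv_cancel_left] at h4
  obtain ⟨w, hw⟩ := h4
  exact (SimpleGraph.dist_le w).trans (by omega)

theorem rr_le_walk {l : ℕ} (hl : l = 3 ∨ l = 5) {p q : QG} (w : (tg l).Walk p q) :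
    rr l (p⁻¹ * q) ≤ w.length := by
  have : Fact l.Prime := ⟨prime_of hl⟩
  induction w with
  | nil => simp [rr_one]
  | cons h w ih =>
    rename_i a b c
    have h1 := rr_mul l (a⁻¹ * b) (b⁻¹ * c)
    rw [show a⁻¹ * b * (b⁻¹ * c) = a⁻¹ * c by group] at h1
    have h2 := h.2
    rw [SimpleGraph.Walk.length_cons]
    omega

theorem rr_le_dist {l : ℕ} (hl : l = 3 ∨ l = 5) (p q : QG) :
    rr l (p⁻¹ * q) ≤ (tg l).dist p q := by
  obtain ⟨w, hw⟩ := (tg_connected hl).exists_walk_length_eq_dist p q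
  rw [← hw]
  exact rr_le_walk hl w

theorem tg_hyperbolic {l : ℕ} (hl : l = 3 ∨ l = 5) : Hyperbolic 1 (tg l) := by
  refine ⟨tg_connected hl, ?_⟩
  intro x y z w
  have h := four_point hl z x w y
  have u1 := dist_le_rr hl x y
  have u2 := dist_le_rr hl z w
  have l1 := rr_le_dist hl x w
  have l2 := rr_le_dist hl z y
  have l3 := rr_le_dist hl w y
  have l4 := rr_le_dist hl z x
  have s2 : (tg l).dist z y = (tg l).dist y z := SimpleGraph.dist_comm
  have s3 : (tg l).dist w y = (tg l).dist y w := SimpleGraph.dist_comm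
  have s4 : (tg l).dist z x = (tg l).dist x z := SimpleGraph.dist_comm
  have hN : (tg l).dist x y + (tg l).dist z w ≤
      max ((tg l).dist x z + (tg l).dist y w) ((tg l).dist x w + (tg l).dist y z) + 2 := by
    rcases le_max_iff.mp h with h | h
    · have := le_max_right ((tg l).dist x z + (tg l).dist y w)
        ((tg l).dist x w + (tg l).dist y z)
      omega
    · have := le_max_left ((tg l).dist x z + (tg l).dist y w)
        ((tg l).dist x w + (tg l).dist y z)
      omega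
  have hR : (((tg l).dist x y + (tg l).dist z w : ℕ) : ℝ) ≤
      ((max ((tg l).dist x z + (tg l).dist y w) ((tg l).dist x w + (tg l).dist y z) + 2 : ℕ) : ℝ) :=
    Nat.cast_le.mpr hN
  push_cast at hR
  linarith

/-- splitting used for partial realization -/
theorem split (g : QG) : ∃ u v : QG, g = u * v ∧ rr 3 u = 0 ∧ rr 5 v = 0 := by
  obtain ⟨u, L5, L3, hu, h5, h3, l5, l3, hg⟩ := factorization g
  refine ⟨cl u * cl L5.prod, cl L3.prod, by rw [hg, mul_assoc], ?_, ?_⟩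
  · rw [← cl_mul]
    have h1 : rr 3 (cl (u * L5.prod)) ≤ val 3 ((u * L5.prod : PM) : ℍ[ℤ]) := rr_le
    have h2 : ∀ L : List PM, (∀ a ∈ L, normSq (a : ℍ[ℤ]) = 5) → val 3 (L.prod : PM) = 0 := by
      intro L
      induction L with
      | nil => intro _; rw [List.prod_nil, Submonoid.coe_one, val_one]
      | cons a L ih =>
        intro h
        rw [List.prod_cons, Submonoid.coe_mul, val_mul a.2 (L.prod).2,
          ih (fun b hb => h b (by simp [hb]))]
        have := val_of_norm (l := 3) (n := 5) (by exact_mod_cast h a (by simp)) (by norm_num)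
        omega
    rw [Submonoid.coe_mul, val_mul u.2 (L5.prod).2, h2 L5 h5] at h1
    have h3 := val_of_norm (l := 3) (n := 1) (by exact_mod_cast hu) (by norm_num)
    omega
  · have h1 : rr 5 (cl L3.prod) ≤ val 5 (L3.prod : PM) := rr_le
    have h2 : ∀ L : List PM, (∀ a ∈ L, normSq (a : ℍ[ℤ]) = 3) → val 5 (L.prod : PM) = 0 := by
      intro L
      induction L with
      | nil => intro _; rw [List.prod_nil, Submonoid.coe_one, val_one]
      | cons a L ih =>
        intro h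
        rw [List.prod_cons, Submonoid.coe_mul, val_mul a.2 (L.prod).2,
          ih (fun b hb => h b (by simp [hb]))]
        have := val_of_norm (l := 5) (n := 3) (by exact_mod_cast h a (by simp)) (by norm_num)
        omega
    rw [h2 L3 h3] at h1
    omega

end Pool.Agent.H290R3.HHG
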