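import Mathlib
import Pool.Agent.H290R3.HHG.Metric

set_option autoImplicit false

namespace Pool.Agent.H290R3.HHG

open Quaternion Pool.Agent.H290R3.HHGDefs

/-- commuting with `i + j` -/
def inK (x : ℍ[ℤ]) : Prop := x.imI = x.imJ ∧ x.imK = 0

/-- anticommuting with `i + j` -/
def inA (x : ℍ[ℤ]) : Prop := x.re = 0 ∧ x.imI = - x.imJ

theorem K_mul_K {x y : ℍ[ℤ]} (hx : inK x) (hy : inK y) : inK (x * y) := by
  obtain ⟨h1, h2⟩ := hx
  obtain ⟨h3, h4⟩ := hy
  constructor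
  · rw [imI_mul, imJ_mul, h1, h2, h3, h4]; ring
  · rw [imK_mul, h1, h2, h3, h4]; ring

theorem K_mul_A {x y : ℍ[ℤ]} (hx : inK x) (hy : inA y) : inA (x * y) := by
  obtain ⟨h1, h2⟩ := hx
  obtain ⟨h3, h4⟩ := hy
  constructor
  · rw [re_mul, h1, h2, h3, h4]; ring
  · rw [imI_mul, imJ_mul, h1, h2, h3, h4]; ring

theorem A_mul_K {x y : ℍ[ℤ]} (hx : inA x) (hy : inK y) : inA (x * y) := by
  obtain ⟨h1, h2⟩ := hx
  obtain ⟨h3, h4⟩ := hy
  constructor
  · rw [re_mul, h1, h2, h3, h4]; ring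
  · rw [imI_mul, imJ_mul, h1, h2, h3, h4]; ring

theorem A_mul_A {x y : ℍ[ℤ]} (hx : inA x) (hy : inA y) : inK (x * y) := by
  obtain ⟨h1, h2⟩ := hx
  obtain ⟨h3, h4⟩ := hy
  constructor
  · rw [imI_mul, imJ_mul, h1, h2, h3, h4]; ring
  · rw [imK_mul, h1, h2, h3, h4]; ring

theorem K_star {x : ℍ[ℤ]} (hx : inK x) : inK (star x) := by
  obtain ⟨h1, h2⟩ := hx
  constructor
  · rw [imI_star, imJ_star, h1]
  · rw [imK_star, h2, neg_zero]

theorem A_star {x : ℍ[ℤ]} (hx : inA x) : inA (star x) := by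
  obtain ⟨h1, h2⟩ := hx
  constructor
  · rw [re_star, h1]
  · rw [imI_star, imJ_star, h2]

/-- the subgroup -/
def HH : Subgroup QG where
  carrier := {g | ∃ x : PM, cl x = g ∧ (inK (x : ℍ[ℤ]) ∨ inA (x : ℍ[ℤ]))}
  one_mem' := ⟨1, cl_one, Or.inl ⟨rfl, rfl⟩⟩
  mul_mem' := by
    rintro g h ⟨x, rfl, hx⟩ ⟨y, rfl, hy⟩
    refine ⟨x * y, cl_mul x y, ?_⟩
    rw [Submonoid.coe_mul]
    rcases hx with hx | hx <;> rcases hy with hy | hy
    · exact Or.inl (K_mul_K hx hy)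
    · exact Or.inr (K_mul_A hx hy)
    · exact Or.inr (A_mul_K hx hy)
    · exact Or.inl (A_mul_A hx hy)
  inv_mem' := by
    rintro g ⟨x, rfl, hx⟩
    refine ⟨starP x, (cl_inv x).symm, ?_⟩
    rcases hx with hx | hx
    · exact Or.inl (K_star hx)
    · exact Or.inr (A_star hx)

theorem trace_eq {m n : ℤ} {w y z : ℍ[ℤ]} (hy : normSq y ≠ 0)
    (h : m • (w * y) = n • (y * z)) : m * w.re = n * z.re := by
  have h1 := congrArg (·.re) h
  have h2 := congrArg (·.imI) h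
  have h3 := congrArg (·.imJ) h
  have h4 := congrArg (·.imK) h
  simp only [re_smul, imI_smul, imJ_smul, imK_smul, smul_eq_mul, re_mul, imI_mul, imJ_mul,
    imK_mul] at h1 h2 h3 h4
  apply mul_right_cancel₀ hy
  rw [normSq_def']
  linear_combination y.re * h1 + y.imI * h2 + y.imJ * h3 + y.imK * h4

theorem comm_cases {m n : ℤ} (hn : n ≠ 0) {w y z : ℍ[ℤ]} (hy : normSq y ≠ 0)
    (h : m • (w * y) = n • (y * z)) (hw : inK w) (hz : inK z) (hz0 : z.imI ≠ 0) :
    inK y ∨ inA y := by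
  have ht := trace_eq hy h
  obtain ⟨w1, w2⟩ := hw
  obtain ⟨z1, z2⟩ := hz
  have h1 := congrArg (·.re) h
  have h2 := congrArg (·.imI) h
  have h3 := congrArg (·.imJ) h
  have h4 := congrArg (·.imK) h
  simp only [re_smul, imI_smul, imJ_smul, imK_smul, smul_eq_mul, re_mul, imI_mul, imJ_mul,
    imK_mul, ← w1, w2, ← z1, z2] at h1 h2 h3 h4
  set P := m * w.imI with hP
  set Q := n * z.imI with hQ
  have hQ0 : Q ≠ 0 := mul_ne_zero hn hz0
  have e1 : (P - Q) * (y.imI + y.imJ) = 0 := by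
    rw [hP, hQ]; linear_combination y.re * ht - h1
  have e2 : P * (y.re + y.imK) = Q * (y.re - y.imK) := by
    rw [hP, hQ]; linear_combination h2 - y.imI * ht
  have e3 : P * (y.re - y.imK) = Q * (y.re + y.imK) := by
    rw [hP, hQ]; linear_combination h3 - y.imJ * ht
  have e4 : (P + Q) * (y.imJ - y.imI) = 0 := by
    rw [hP, hQ]; linear_combination h4 - y.imK * ht
  have e5 : (P - Q) * y.re = 0 := by linarith
  have e6 : (P + Q) * y.imK = 0 := by linarith
  by_cases hPQ : P = Q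
  · left
    have hs : P + Q ≠ 0 := by
      rw [hPQ]
      intro hc
      apply hQ0
      linarith
    constructor
    · rcases mul_eq_zero.mp e4 with h | h
      · exact absurd h hs
      · linarith
    · rcases mul_eq_zero.mp e6 with h | h
      · exact absurd h hs
      · exact h
  · right
    have hs : P - Q ≠ 0 := sub_ne_zero.mpr hPQ
    constructor
    · rcases mul_eq_zero.mp e5 with h | h
      · exact absurd h hs
      · exact h
    · rcases mul_eq_zero.mp e1 with h | h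
      · exact absurd h hs
      · linarith

theorem PM_odd {x : ℍ[ℤ]} (hx : x ∈ PM) : ¬ (2 : ℤ) ∣ normSq x := by
  intro h
  obtain ⟨k, hk⟩ := hx
  have h2 : (2 : ℤ) ∣ 15 ^ k := h.trans hk
  have hp : Prime (2 : ℤ) := Int.prime_two
  have := hp.dvd_of_dvd_pow h2
  norm_num at this

theorem K_odd {x : ℍ[ℤ]} (hx : x ∈ PM) (hK : inK x) : x.re ≠ 0 := by
  intro h0
  apply PM_odd hx
  rw [normSq_def', h0, ← hK.1, hK.2]
  exact ⟨x.imI ^ 2, by ring⟩

theorem conj_cases {g h : QG} (hg : g ∉ HH) (hh : h ∈ HH) (hx : g * h * g⁻¹ ∈ HH) :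
    g * h * g⁻¹ = 1 ∨ ((∃ x : PM, cl x = h ∧ inA (x : ℍ[ℤ])) ∧
      ∃ x : PM, cl x = g * h * g⁻¹ ∧ inA (x : ℍ[ℤ])) := by
  obtain ⟨y, rfl⟩ := cl_surj g
  obtain ⟨z, rfl, hz⟩ := hh
  obtain ⟨w, hw1, hw⟩ := hx
  have hcl : cl (w * y) = cl (y * z) := by
    rw [cl_mul, cl_mul, hw1]; group
  obtain ⟨m, n, hm, hn, he⟩ := cl_eq_iff.mp hcl
  rw [Submonoid.coe_mul, Submonoid.coe_mul] at he
  have hy0 := PM_normSq_ne_zero y.2
  have ht := trace_eq hy0 he
  rcases hz with hz | hz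
  · left
    have hzr := K_odd z.2 hz
    have hwr : (w : ℍ[ℤ]).re ≠ 0 := by
      intro h0
      rw [h0, mul_zero] at ht
      exact mul_ne_zero hn hzr ht.symm
    rcases hw with hw | hw
    · by_cases hz0 : (z : ℍ[ℤ]).imI = 0
      · -- z scalar
        have hz1 : cl z = 1 := by
          rw [← cl_one, cl_eq_iff]
          refine ⟨1, (z : ℍ[ℤ]).re, one_ne_zero, hzr, ?_⟩
          obtain ⟨z1, z2⟩ := hz
          rw [hz0] at z1
          rw [one_smul]
          ext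
          · simp
          · simp [hz0]
          · simp [← z1]
          · simp [z2]
        rw [hz1]; group
      · exfalso
        apply hg
        exact ⟨y, rfl, comm_cases hn hy0 he hw hz hz0⟩
    · exact absurd hw.1 hwr
  · right
    refine ⟨⟨z, rfl, hz⟩, ⟨w, hw1, ?_⟩⟩
    rcases hw with hw | hw
    · exfalso
      rw [hz.1, mul_zero] at ht
      exact mul_ne_zero hm (K_odd w.2 hw) ht
    · exact hw

theorem A_sq {x : PM} (hx : inA (x : ℍ[ℤ])) : cl x * cl x = 1 := by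
  rw [← cl_mul, ← cl_one, cl_eq_iff]
  refine ⟨1, - normSq (x : ℍ[ℤ]), one_ne_zero, neg_ne_zero.mpr (PM_normSq_ne_zero x.2), ?_⟩
  obtain ⟨h1, h2⟩ := hx
  rw [one_smul, Submonoid.coe_mul, Submonoid.coe_one, normSq_def']
  ext
  · rw [re_mul, re_smul, re_one, h1, h2, smul_eq_mul]; ring
  · rw [imI_mul, imI_smul, imI_one, h1, h2, smul_eq_mul]; ring
  · rw [imJ_mul, imJ_smul, imJ_one, h1, h2, smul_eq_mul]; ring
  · rw [imK_mul, imK_smul, imK_one, h1, h2, smul_eq_mul]; ring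

theorem almostMalnormal_HH : AlmostMalnormal HH := by
  intro g hg
  have key : ∀ x ∈ {x : QG | x ∈ HH ∧ ∃ h ∈ HH, x = g * h * g⁻¹},
      ∀ y ∈ {x : QG | x ∈ HH ∧ ∃ h ∈ HH, x = g * h * g⁻¹}, x ≠ 1 → y ≠ 1 → x = y := by
    rintro x ⟨hx, h, hh, rfl⟩ y ⟨hy, k, hk, rfl⟩ hx1 hy1
    rcases conj_cases hg hh hx with h1 | ⟨⟨a, ha, haA⟩, ⟨b, hb, hbA⟩⟩
    · exact absurd h1 hx1
    rcases conj_cases hg hk hy with h1 | ⟨⟨c, hc, hcA⟩, ⟨d, hd, hdA⟩⟩
    · exact absurd h1 hy1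
    have hprod : g * (h * k) * g⁻¹ = (g * h * g⁻¹) * (g * k * g⁻¹) := by group
    rcases conj_cases hg (HH.mul_mem hh hk) (by rw [hprod]; exact HH.mul_mem hx hy) with
      h1 | ⟨⟨e, he, heA⟩, _⟩
    · rw [hprod] at h1
      have h2 : (g * k * g⁻¹) * (g * k * g⁻¹) = 1 := by
        rw [← hd]; exact A_sq hdA
      rw [mul_eq_one_iff_eq_inv] at h1 h2
      rw [h1, ← h2]
    · exfalso
      -- e ∈ A and a * c ∈ K represent the same element
      have hac : cl e = cl (a * c) := by rw [he, cl_mul, ha, hc]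
      obtain ⟨m, n, hm, hn, heq⟩ := cl_eq_iff.mp hac
      have h3 : m * (e : ℍ[ℤ]).re = n * ((a * c : PM) : ℍ[ℤ]).re := by
        have := congrArg (·.re) heq
        simpa using this
      rw [heA.1, mul_zero] at h3
      have hK : inK ((a * c : PM) : ℍ[ℤ]) := by
        rw [Submonoid.coe_mul]; exact A_mul_A haA hcA
      exact mul_ne_zero hn (K_odd (a * c).2 hK) h3.symm
  set S := {x : QG | x ∈ HH ∧ ∃ h ∈ HH, x = g * h * g⁻¹} with hS
  have h1 : (S \ {1}).Subsingleton := by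
    rintro x ⟨hx, hx1⟩ y ⟨hy, hy1⟩
    exact key x hx y hy (by simpa using hx1) (by simpa using hy1)
  have h2 : (S \ {1} ∪ {1}).Finite := h1.finite.union (Set.finite_singleton 1)
  refine h2.subset ?_
  intro x hx
  by_cases h : x = 1
  · exact Or.inr h
  · exact Or.inl ⟨hx, h⟩

/-- the generators of `HH` -/
def bP : PM := ⟨qmk 1 1 1 0, ⟨1, by rw [normSq_def']; simp [qmk]⟩⟩
def kP : PM := ⟨qmk 0 0 0 1, ⟨0, by rw [normSq_def']; simp [qmk]⟩⟩

theorem five_dvd {u v : ℤ} (h : (5 : ℤ) ∣ u ^ 2 + 2 * v ^ 2) : (5 : ℤ) ∣ u ∧ (5 : ℤ) ∣ v := by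
  have key : ∀ a b : ZMod 5, a ^ 2 + 2 * b ^ 2 = 0 → a = 0 ∧ b = 0 := by decide
  have h1 := (ZMod.intCast_zmod_eq_zero_iff_dvd _ 5).mpr h
  push_cast at h1
  obtain ⟨h2, h3⟩ := key _ _ h1
  exact ⟨(ZMod.intCast_zmod_eq_zero_iff_dvd _ 5).mp h2, (ZMod.intCast_zmod_eq_zero_iff_dvd _ 5).mp h3⟩

theorem three_dvd {u v : ℤ} (h : (3 : ℤ) ∣ u ^ 2 + 2 * v ^ 2) : (3 : ℤ) ∣ u - v ∨ (3 : ℤ) ∣ u + v := by
  have key : ∀ a b : ZMod 3, a ^ 2 + 2 * b ^ 2 = 0 → a - b = 0 ∨ a + b = 0 := by decide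
  have h1 := (ZMod.intCast_zmod_eq_zero_iff_dvd _ 3).mpr h
  push_cast at h1
  rcases key _ _ h1 with h2 | h2
  · left
    apply (ZMod.intCast_zmod_eq_zero_iff_dvd _ 3).mp
    push_cast
    exact h2
  · right
    apply (ZMod.intCast_zmod_eq_zero_iff_dvd _ 3).mp
    push_cast
    exact h2

theorem norm_cases {x : ℍ[ℤ]} (hx : x ∈ PM) : normSq x = 1 ∨ (3 : ℤ) ∣ normSq x ∨ (5 : ℤ) ∣ normSq x := by
  by_cases h3 : val 3 x = 0
  · by_cases h5 : val 5 x = 0
    · exact Or.inl (normSq_eq_one_of_val hx h3 h5)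
    · right; right
      by_contra hcon
      exact h5 (padicValInt.eq_zero_of_not_dvd hcon)
  · right; left
    by_contra hcon
    exact h3 (padicValInt.eq_zero_of_not_dvd hcon)

theorem K_mem (n : ℕ) : ∀ x : PM, inK (x : ℍ[ℤ]) → (normSq (x : ℍ[ℤ])).natAbs = n →
    cl x ∈ Subgroup.closure ({cl bP, cl kP} : Set QG) := by
  induction n using Nat.strong_induction_on with
  | _ n ih =>
    intro x hx hn
    obtain ⟨hx1, hx2⟩ := hx
    have hN : normSq (x : ℍ[ℤ]) = (x : ℍ[ℤ]).re ^ 2 + 2 * (x : ℍ[ℤ]).imI ^ 2 := by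
      rw [normSq_def', ← hx1, hx2]; ring
    have hx0 := PM_normSq_ne_zero x.2
    have hb : cl bP ∈ Subgroup.closure ({cl bP, cl kP} : Set QG) :=
      Subgroup.subset_closure (by simp)
    rcases norm_cases x.2 with h1 | h3 | h5
    · -- norm one
      have hv : (x : ℍ[ℤ]).imI = 0 := by
        rw [h1] at hN
        by_contra hne
        have : 0 < (x : ℍ[ℤ]).imI ^ 2 := by positivity
        nlinarith [sq_nonneg (x : ℍ[ℤ]).re]
      have hr : (x : ℍ[ℤ]).re ≠ 0 := by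
        intro h0
        rw [h0, hv] at hN
        rw [hN] at hx0
        norm_num at hx0
      have : cl x = 1 := by
        rw [← cl_one, cl_eq_iff]
        refine ⟨1, (x : ℍ[ℤ]).re, one_ne_zero, hr, ?_⟩
        rw [hv] at hx1
        rw [one_smul]
        ext
        · simp
        · simp [hv]
        · simp [← hx1]
        · simp [hx2]
      rw [this]
      exact Subgroup.one_mem _
    · -- divisible by three
      rw [hN] at h3
      rcases three_dvd h3 with h | h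
      · -- x = y * (1 + ω)
        obtain ⟨t, ht⟩ := h
        -- re = imI + 3 t ; y = (re + 2 imI)/3 + (imI - re)/3 ω = (imI + t) - t ω
        have hxy : (x : ℍ[ℤ]) = qmk ((x : ℍ[ℤ]).imI + t) (-t) (-t) 0 * qmk 1 1 1 0 := by
          ext
          · rw [re_mul]; simp; linarith
          · rw [imI_mul]; simp
          · rw [imJ_mul]; simp; linarith
          · rw [imK_mul]; simp [hx2]
        have hNy : normSq (x : ℍ[ℤ]) = normSq (qmk ((x : ℍ[ℤ]).imI + t) (-t) (-t) 0) * 3 := by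
          conv_lhs => rw [hxy, map_mul]
          congr 1
        have hyP : qmk ((x : ℍ[ℤ]).imI + t) (-t) (-t) 0 ∈ PM :=
          PM_of_dvd x.2 (hNy ▸ Dvd.intro _ rfl)
        have hcl : cl x = cl ⟨_, hyP⟩ * cl bP := by
          rw [← cl_mul]
          congr 1
          exact Subtype.ext hxy
        rw [hcl]
        refine Subgroup.mul_mem _ (ih _ ?_ ⟨_, hyP⟩ ⟨rfl, rfl⟩ rfl) hb
        rw [← hn, hNy, Int.natAbs_mul]
        have := Int.natAbs_pos.mpr (PM_normSq_ne_zero hyP)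
        have e3 : (3 : ℤ).natAbs = 3 := rfl
        rw [e3]
        show (normSq (qmk ((x : ℍ[ℤ]).imI + t) (-t) (-t) 0)).natAbs < _
        omega
      · -- x = y * (1 - ω)
        obtain ⟨t, ht⟩ := h
        -- re = 3 t - imI ; y = (re - 2 imI)/3 + (re + imI)/3 ω = (t - imI) + t ω
        have hxy : (x : ℍ[ℤ]) = qmk (t - (x : ℍ[ℤ]).imI) t t 0 * qmk 1 (-1) (-1) 0 := by
          ext
          · rw [re_mul]; simp; linarith
          · rw [imI_mul]; simp
          · rw [imJ_mul]; simp; linarith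
          · rw [imK_mul]; simp [hx2]
        have hNy : normSq (x : ℍ[ℤ]) = normSq (qmk (t - (x : ℍ[ℤ]).imI) t t 0) * 3 := by
          conv_lhs => rw [hxy, map_mul]
          congr 1
        have hyP : qmk (t - (x : ℍ[ℤ]).imI) t t 0 ∈ PM :=
          PM_of_dvd x.2 (hNy ▸ Dvd.intro _ rfl)
        have hcl : cl x = cl ⟨_, hyP⟩ * (cl bP)⁻¹ := by
          rw [cl_inv, ← cl_mul]
          congr 1
          apply Subtype.ext
          conv_lhs => rw [hxy]
          rw [Submonoid.coe_mul]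
          congr 1
        rw [hcl]
        refine Subgroup.mul_mem _ (ih _ ?_ ⟨_, hyP⟩ ⟨rfl, rfl⟩ rfl) (Subgroup.inv_mem _ hb)
        rw [← hn, hNy, Int.natAbs_mul]
        have := Int.natAbs_pos.mpr (PM_normSq_ne_zero hyP)
        have e3 : (3 : ℤ).natAbs = 3 := rfl
        rw [e3]
        show (normSq (qmk (t - (x : ℍ[ℤ]).imI) t t 0)).natAbs < _
        omega
    · rw [hN] at h5
      obtain ⟨⟨s, hs⟩, ⟨t, ht⟩⟩ := five_dvd h5
      have hxy : (x : ℍ[ℤ]) = (5 : ℤ) • qmk s t t 0 := by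
        ext
        · rw [re_smul, smul_eq_mul]; exact hs
        · rw [imI_smul, smul_eq_mul]; exact ht
        · rw [← hx1, imJ_smul, smul_eq_mul]; exact ht
        · rw [hx2, imK_smul, smul_eq_mul]; rfl
      have hNy : normSq (x : ℍ[ℤ]) = 5 ^ 2 * normSq (qmk s t t 0) := by
        rw [hxy, normSq_smul']
      have hyP : qmk s t t 0 ∈ PM := PM_of_dvd x.2 (hNy ▸ Dvd.intro_left _ rfl)
      have hcl : cl x = cl ⟨_, hyP⟩ := by
        rw [cl_eq_iff]
        exact ⟨1, 5, one_ne_zero, by norm_num, by rw [one_smul]; exact hxy⟩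
      rw [hcl]
      refine ih _ ?_ ⟨_, hyP⟩ ⟨rfl, rfl⟩ rfl
      rw [← hn, hNy, Int.natAbs_mul]
      have := Int.natAbs_pos.mpr (PM_normSq_ne_zero hyP)
      have e3 : ((5 : ℤ) ^ 2).natAbs = 25 := by norm_num
      rw [e3]
      show (normSq (qmk s t t 0)).natAbs < _
      omega

theorem HH_eq : HH = Subgroup.closure ({cl bP, cl kP} : Set QG) := by
  apply le_antisymm
  · rintro g ⟨x, rfl, hx | hx⟩
    · exact K_mem _ x hx rfl
    · have h1 : inK ((x * kP : PM) : ℍ[ℤ]) := by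
        rw [Submonoid.coe_mul]
        exact A_mul_A hx ⟨rfl, by simp [kP]⟩
      have h2 := K_mem _ (x * kP) h1 rfl
      have hk : cl kP ∈ Subgroup.closure ({cl bP, cl kP} : Set QG) :=
        Subgroup.subset_closure (by simp)
      have h3 : cl x = cl (x * kP) * (cl kP)⁻¹ := by rw [cl_mul]; group
      rw [h3]
      exact Subgroup.mul_mem _ h2 (Subgroup.inv_mem _ hk)
  · rw [Subgroup.closure_le]
    rintro g (rfl | rfl)
    · exact ⟨bP, rfl, Or.inl ⟨rfl, rfl⟩⟩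
    · exact ⟨kP, rfl, Or.inr ⟨rfl, by simp [kP]⟩⟩

theorem HH_fg : HH.FG := by
  rw [Subgroup.fg_iff]
  exact ⟨{cl bP, cl kP}, HH_eq.symm, Set.toFinite _⟩

end Pool.Agent.H290R3.HHG
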