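import Mathlib
import Pool.Agent.H290R3.HHG.Malnormal

set_option autoImplicit false

namespace Pool.Agent.H290R3.HHG

open Quaternion Pool.Agent.H290R3.HHGDefs

def cP : PM := ⟨qmk 1 2 0 0, ⟨1, by rw [normSq_def']; simp [qmk]⟩⟩

theorem cl_pow (x : PM) (n : ℕ) : cl (x ^ n) = (cl x) ^ n := by
  induction n with
  | zero => rw [pow_zero, pow_zero, cl_one]
  | succ n ih => rw [pow_succ, pow_succ, cl_mul, ih]

theorem val_pow {l : ℕ} [Fact l.Prime] (x : PM) (n : ℕ) :
    val l ((x ^ n : PM) : ℍ[ℤ]) = n * val l x := by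
  induction n with
  | zero => rw [pow_zero, Submonoid.coe_one, val_one, zero_mul]
  | succ n ih => rw [pow_succ, Submonoid.coe_mul, val_mul (x ^ n).2 x.2, ih]; ring

theorem cP_norm : normSq (cP : ℍ[ℤ]) = 5 := by
  rw [normSq_def']; simp [cP]

theorem bP_norm : normSq (bP : ℍ[ℤ]) = 3 := by
  rw [normSq_def']; simp [bP]

theorem kP_norm : normSq (kP : ℍ[ℤ]) = 1 := by
  rw [normSq_def']; simp [kP]

theorem cP_pow (n : ℕ) : ∃ a b : ℤ, ((cP ^ (n + 1) : PM) : ℍ[ℤ]) = qmk a b 0 0 ∧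
    ¬ (5 : ℤ) ∣ a ∧ (5 : ℤ) ∣ b - 2 * a := by
  induction n with
  | zero => exact ⟨1, 2, by rw [zero_add, pow_one]; rfl, by norm_num, by norm_num⟩
  | succ n ih =>
    obtain ⟨a, b, h1, h2, h3⟩ := ih
    refine ⟨a - 2 * b, b + 2 * a, ?_, by omega, by omega⟩
    rw [pow_succ, Submonoid.coe_mul, h1]
    ext
    · rw [re_mul]; simp [cP]; ring
    · rw [imI_mul]; simp [cP]; ring
    · rw [imJ_mul]; simp [cP]
    · rw [imK_mul]; simp [cP]

theorem bP_pow (n : ℕ) : ∃ a b : ℤ, ((bP ^ (n + 1) : PM) : ℍ[ℤ]) = qmk a b b 0 ∧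
    ¬ (3 : ℤ) ∣ a ∧ (3 : ℤ) ∣ b - a := by
  induction n with
  | zero => exact ⟨1, 1, by rw [zero_add, pow_one]; rfl, by norm_num, by norm_num⟩
  | succ n ih =>
    obtain ⟨a, b, h1, h2, h3⟩ := ih
    refine ⟨a - 2 * b, b + a, ?_, by omega, by omega⟩
    rw [pow_succ, Submonoid.coe_mul, h1]
    ext
    · rw [re_mul]; simp [bP]; ring
    · rw [imI_mul]; simp [bP]; ring
    · rw [imJ_mul]; simp [bP]; ring
    · rw [imK_mul]; simp [bP]

theorem rr5_c_pow (n : ℕ) : rr 5 ((cl cP) ^ n) = n := by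
  cases n with
  | zero => rw [pow_zero, rr_one]
  | succ n =>
    rw [← cl_pow]
    obtain ⟨a, b, h1, h2, h3⟩ := cP_pow n
    have hd : ¬ QDvd ((5 : ℕ) : ℤ) ((cP ^ (n + 1) : PM) : ℍ[ℤ]) := by
      intro h
      rw [h1] at h
      exact h2 h.1
    rw [rr_eq_val hd, val_pow, val_eq_one (Or.inr rfl) (by exact_mod_cast cP_norm), mul_one]

theorem rr3_b_pow (n : ℕ) : rr 3 ((cl bP) ^ n) = n := by
  cases n with
  | zero => rw [pow_zero, rr_one]
  | succ n =>
    rw [← cl_pow]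
    obtain ⟨a, b, h1, h2, h3⟩ := bP_pow n
    have hd : ¬ QDvd ((3 : ℕ) : ℤ) ((bP ^ (n + 1) : PM) : ℍ[ℤ]) := by
      intro h
      rw [h1] at h
      exact h2 h.1
    rw [rr_eq_val hd, val_pow, val_eq_one (Or.inl rfl) (by exact_mod_cast bP_norm), mul_one]

theorem rr_letter3 {a : PM} (h : normSq (a : ℍ[ℤ]) = 3) : rr 3 (cl a) ≤ 1 ∧ rr 5 (cl a) = 0 := by
  have h3 : rr 3 (cl a) ≤ val 3 a := rr_le
  have h5 : rr 5 (cl a) ≤ val 5 a := rr_le
  have e3 := val_eq_one (l := 3) (Or.inl rfl) (by exact_mod_cast h)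
  have e5 := val_of_norm (l := 5) (n := 3) (by exact_mod_cast h) (by norm_num)
  constructor <;> omega

theorem rr_letter5 {a : PM} (h : normSq (a : ℍ[ℤ]) = 5) : rr 5 (cl a) ≤ 1 ∧ rr 3 (cl a) = 0 := by
  have h3 : rr 3 (cl a) ≤ val 3 a := rr_le
  have h5 : rr 5 (cl a) ≤ val 5 a := rr_le
  have e3 := val_of_norm (l := 3) (n := 5) (by exact_mod_cast h) (by norm_num)
  have e5 := val_eq_one (l := 5) (Or.inr rfl) (by exact_mod_cast h)
  constructor <;> omega

theorem rr_letter1 {a : PM} (h : normSq (a : ℍ[ℤ]) = 1) : rr 5 (cl a) = 0 ∧ rr 3 (cl a) = 0 := by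
  have h3 : rr 3 (cl a) ≤ val 3 a := rr_le
  have h5 : rr 5 (cl a) ≤ val 5 a := rr_le
  have e3 := val_of_norm (l := 3) (n := 1) (by exact_mod_cast h) (by norm_num)
  have e5 := val_of_norm (l := 5) (n := 1) (by exact_mod_cast h) (by norm_num)
  constructor <;> omega

theorem rr_pow_zero {l : ℕ} [Fact l.Prime] {g : QG} (h : rr l g = 0) (n : ℕ) :
    rr l (g ^ n) = 0 := by
  induction n with
  | zero => rw [pow_zero, rr_one]
  | succ n ih =>
    have := rr_mul l (g ^ n) g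
    rw [pow_succ]
    omega

theorem rr5_HH {h : QG} (hh : h ∈ HH) : rr 5 h = 0 := by
  rw [HH_eq] at hh
  induction hh using Subgroup.closure_induction with
  | mem x hx =>
    rcases hx with rfl | rfl
    · exact (rr_letter3 bP_norm).2
    · exact (rr_letter1 kP_norm).1
  | one => exact rr_one 5
  | mul x y _ _ hx hy =>
    have := rr_mul 5 x y
    omega
  | inv x _ hx => rw [rr_inv, hx]

theorem factorization35 (g : QG) : ∃ (u : PM) (L3 L5 : List PM), normSq (u : ℍ[ℤ]) = 1 ∧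
    (∀ a ∈ L3, normSq (a : ℍ[ℤ]) = 3) ∧ (∀ a ∈ L5, normSq (a : ℍ[ℤ]) = 5) ∧
    L3.length = rr 3 g ∧ L5.length = rr 5 g ∧ g = cl u * (cl L3.prod * cl L5.prod) := by
  obtain ⟨x, rfl, h3, h5⟩ := exists_prim g
  obtain ⟨x', L5, a1, a2, a3, a4⟩ := chain (l := 5) (Or.inr rfl) _ x h5 rfl
  have h3' : ¬ QDvd ((3 : ℕ) : ℤ) (x' : ℍ[ℤ]) := by
    intro h
    apply h3
    rw [a3, Submonoid.coe_mul]
    exact h.mul_right _
  obtain ⟨u, L3, b1, b2, b3, b4⟩ := chain (l := 3) (Or.inl rfl) _ x' h3' rfl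
  have hu5 : val 5 u = 0 := by
    have : val 5 (x' : ℍ[ℤ]) = val 5 u + val 5 (L3.prod : PM) := by
      rw [b3, Submonoid.coe_mul, val_mul u.2 (L3.prod).2]
    omega
  have hu : normSq (u : ℍ[ℤ]) = 1 := normSq_eq_one_of_val u.2 b4 hu5
  have hL5 : val 3 (L5.prod : PM) = 0 := by
    have : ∀ L : List PM, (∀ a ∈ L, normSq (a : ℍ[ℤ]) = 5) → val 3 (L.prod : PM) = 0 := by
      intro L
      induction L with
      | nil => intro _; rw [List.prod_nil, Submonoid.coe_one, val_one]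
      | cons a L ih =>
        intro h
        rw [List.prod_cons, Submonoid.coe_mul, val_mul a.2 (L.prod).2, ih (fun b hb => h b (by simp [hb]))]
        have := val_of_norm (l := 3) (n := 5) (by exact_mod_cast h a (by simp)) (by norm_num)
        omega
    exact this L5 (fun a ha => by exact_mod_cast a2 a ha)
  refine ⟨u, L3, L5, hu, fun a ha => by exact_mod_cast b2 a ha, fun a ha => by exact_mod_cast a2 a ha,
    ?_, ?_, ?_⟩
  · rw [b1]
    have e1 : rr 3 (cl x) = val 3 x := rr_eq_val h3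
    rw [e1]
    have : val 3 (x : ℍ[ℤ]) = val 3 x' + val 3 (L5.prod : PM) := by
      rw [a3, Submonoid.coe_mul, val_mul x'.2 (L5.prod).2]
    omega
  · rw [a1]
    exact (rr_eq_val h5).symm
  · rw [← cl_mul, ← cl_mul, a3, b3, mul_assoc]

theorem wordLen_exists (g : QG) : ∃ L : List QG, L.length = wordLen gens g ∧
    (∀ x ∈ L, x ∈ gens ∨ x⁻¹ ∈ gens) ∧ L.prod = g := by
  obtain ⟨L0, h1, h2, h3⟩ := exists_gen_list g
  exact Nat.sInf_mem (s := {n | ∃ l : List QG, l.length = n ∧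
    (∀ x ∈ l, x ∈ gens ∨ x⁻¹ ∈ gens) ∧ l.prod = g})
    ⟨_, L0, h1, fun x hx => Or.inl (h2 x hx), h3⟩

theorem wordLen_one : wordLen gens (1 : QG) = 0 :=
  Nat.le_zero.mp (Nat.sInf_le ⟨[], rfl, by simp, rfl⟩)

theorem wordLen_mul (g h : QG) : wordLen gens (g * h) ≤ wordLen gens g + wordLen gens h := by
  obtain ⟨L, l1, l2, l3⟩ := wordLen_exists g
  obtain ⟨M, m1, m2, m3⟩ := wordLen_exists h
  refine Nat.sInf_le ⟨L ++ M, by rw [List.length_append, l1, m1], ?_, by
    rw [List.prod_append, l3, m3]⟩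
  intro x hx
  rcases List.mem_append.mp hx with hx | hx
  · exact l2 x hx
  · exact m2 x hx

theorem wordLen_inv (g : QG) : wordLen gens g⁻¹ = wordLen gens g := by
  have h : ∀ g : QG, wordLen gens g⁻¹ ≤ wordLen gens g := by
    intro g
    obtain ⟨L, l1, l2, l3⟩ := wordLen_exists g
    refine Nat.sInf_le ⟨(L.map (fun x => x⁻¹)).reverse, by simp [l1], ?_, by
      rw [← List.prod_inv_reverse, l3]⟩
    intro x hx
    rw [List.mem_reverse, List.mem_map] at hx
    obtain ⟨y, hy, rfl⟩ := hx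
    rw [inv_inv]
    exact (l2 y hy).symm
  have h1 := h g
  have h2 := h g⁻¹
  rw [inv_inv] at h2
  omega

theorem tele {N : ℕ} {r : QG → ℕ} (h1 : r 1 = 0) (hm : ∀ g h, r (g * h) ≤ r g + r h)
    (f : ℕ → ℕ) (p : ℕ → QG) (hs : ∀ t < N, r ((p t)⁻¹ * p (t + 1)) + f t ≤ f (t + 1)) :
    ∀ j i, i ≤ j → j ≤ N → r ((p i)⁻¹ * p j) + f i ≤ f j := by
  intro j
  induction j with
  | zero =>
    intro i hi _
    have : i = 0 := by omega
    subst this
    rw [inv_mul_cancel, h1]; omega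
  | succ j ih =>
    intro i hi hj
    by_cases h : i = j + 1
    · subst h
      rw [inv_mul_cancel, h1]; omega
    · have h2 := ih i (by omega) (by omega)
      have h3 := hs j (by omega)
      have h4 := hm ((p i)⁻¹ * p j) ((p j)⁻¹ * p (j + 1))
      rw [show (p i)⁻¹ * p j * ((p j)⁻¹ * p (j + 1)) = (p i)⁻¹ * p (j + 1) by group] at h4
      omega

/-- the bad path -/
theorem exists_path (n : ℕ) : ∃ p : ℕ → QG, p 0 = 1 ∧ p n = (cl cP) ^ n ∧
    p (3 * n + 1) = (cl bP) ^ n ∧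
    (∀ t < 3 * n + 1, wordLen gens ((p t)⁻¹ * p (t + 1)) ≤ 1) ∧
    (∀ t < 3 * n + 1, rr 3 ((p t)⁻¹ * p (t + 1)) + min (t - (n + 1)) n ≤
      min (t + 1 - (n + 1)) n) ∧
    (∀ t < 3 * n + 1, rr 5 ((p t)⁻¹ * p (t + 1)) + (min t n + (t - (2 * n + 1))) ≤
      min (t + 1) n + (t + 1 - (2 * n + 1))) := by
  have hc3 := (rr_letter5 cP_norm).2
  have hb5 := (rr_letter3 bP_norm).2
  obtain ⟨g, hg⟩ : ∃ g : QG, g = ((cl cP) ^ n)⁻¹ * (cl bP) ^ n := ⟨_, rfl⟩
  have hg3 : rr 3 g = n := by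
    have h1 := rr_mul 3 ((cl cP) ^ n)⁻¹ ((cl bP) ^ n)
    have h2 := rr_mul 3 ((cl cP) ^ n) g
    rw [hg, mul_inv_cancel_left, rr3_b_pow, rr_pow_zero hc3, ← hg] at h2
    rw [rr_inv, rr_pow_zero hc3, rr3_b_pow, ← hg] at h1
    omega
  have hg5 : rr 5 g = n := by
    have h1 := rr_mul 5 ((cl cP) ^ n)⁻¹ ((cl bP) ^ n)
    have h2 := rr_mul 5 g ((cl bP) ^ n)⁻¹
    rw [show g * ((cl bP) ^ n)⁻¹ = ((cl cP) ^ n)⁻¹ by rw [hg]; group, rr_inv, rr_inv, rr5_c_pow,
      rr_pow_zero hb5] at h2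
    rw [rr_inv, rr_pow_zero hb5, rr5_c_pow, ← hg] at h1
    omega
  obtain ⟨u, L3, L5, hu, h3, h5, l3, l5, hfac⟩ := factorization35 g
  rw [hg3] at l3
  rw [hg5] at l5
  set W : List QG := List.replicate n (cl cP) ++ (cl u :: (L3.map cl ++ L5.map cl)) with hW
  have hlen : W.length = 3 * n + 1 := by
    rw [hW]
    simp only [List.length_append, List.length_cons, List.length_map, List.length_replicate]
    omega
  have hstep : ∀ t (ht : t < W.length), ((W.take t).prod)⁻¹ * (W.take (t + 1)).prod = W[t] := by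
    intro t ht
    rw [List.prod_take_succ _ _ ht, inv_mul_cancel_left]
  -- letters
  have hlet : ∀ t (ht : t < W.length), (t < n ∧ W[t] = cl cP) ∨ (t = n ∧ W[t] = cl u) ∨
      (n + 1 ≤ t ∧ t < 2 * n + 1 ∧ ∃ a : PM, normSq (a : ℍ[ℤ]) = 3 ∧ W[t] = cl a) ∨
      (2 * n + 1 ≤ t ∧ ∃ a : PM, normSq (a : ℍ[ℤ]) = 5 ∧ W[t] = cl a) := by
    intro t ht
    by_cases c1 : t < n
    · left
      refine ⟨c1, ?_⟩
      simp only [hW]
      rw [List.getElem_append_left (by rw [List.length_replicate]; exact c1)]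
      simp
    · right
      by_cases c2 : t = n
      · left
        refine ⟨c2, ?_⟩
        subst c2
        simp only [hW]
        rw [List.getElem_append_right (by rw [List.length_replicate])]
        simp
      · right
        obtain ⟨s, rfl⟩ : ∃ s, t = n + 1 + s := ⟨t - (n + 1), by omega⟩
        have hW2 : W[n + 1 + s] = (L3.map cl ++ L5.map cl)[s]'(by
            simp only [List.length_append, List.length_map]; omega) := by
          simp only [hW]
          rw [List.getElem_append_right (by rw [List.length_replicate]; omega)]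
          simp only [List.length_replicate]
          have : n + 1 + s - n = s + 1 := by omega
          simp only [this, List.getElem_cons_succ]
        by_cases c3 : s < n
        · left
          refine ⟨by omega, by omega, L3[s]'(by omega), h3 _ (List.getElem_mem _), ?_⟩
          rw [hW2, List.getElem_append_left (by rw [List.length_map]; omega), List.getElem_map]
        · right
          refine ⟨by omega, L5[s - L3.length]'(by omega), h5 _ (List.getElem_mem _), ?_⟩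
          rw [hW2, List.getElem_append_right (by rw [List.length_map]; omega), List.getElem_map]
          simp only [List.length_map]
  refine ⟨fun t => (W.take t).prod, by simp, ?_, ?_, ?_, ?_, ?_⟩
  · show (W.take n).prod = _
    have : W.take n = List.replicate n (cl cP) := by
      rw [hW]
      exact List.take_left' (by rw [List.length_replicate])
    rw [this, List.prod_replicate]
  · show (W.take (3 * n + 1)).prod = _
    rw [← hlen, List.take_length, hW, List.prod_append, List.prod_cons, List.prod_append,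
      List.prod_replicate, ← cl_list_prod, ← cl_list_prod, ← hfac, hg, mul_inv_cancel_left]
  · intro t ht
    rw [← hlen] at ht
    show wordLen gens (((W.take t).prod)⁻¹ * (W.take (t + 1)).prod) ≤ 1
    rw [hstep t ht]
    have hgen : ∀ a : PM, (normSq (a : ℍ[ℤ]) = 1 ∨ normSq (a : ℍ[ℤ]) = 3 ∨
        normSq (a : ℍ[ℤ]) = 5) → wordLen gens (cl a) ≤ 1 := by
      intro a ha
      exact Nat.sInf_le ⟨[cl a], rfl, by
        intro x hx
        rw [List.mem_singleton] at hx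
        subst hx
        exact Or.inl ⟨a, rfl, ha⟩, by simp⟩
    rcases hlet t ht with ⟨_, h⟩ | ⟨_, h⟩ | ⟨_, _, a, ha, h⟩ | ⟨_, a, ha, h⟩
    · rw [h]; exact hgen _ (Or.inr (Or.inr cP_norm))
    · rw [h]; exact hgen _ (Or.inl hu)
    · rw [h]; exact hgen _ (Or.inr (Or.inl ha))
    · rw [h]; exact hgen _ (Or.inr (Or.inr ha))
  · intro t ht
    rw [← hlen] at ht
    show rr 3 (((W.take t).prod)⁻¹ * (W.take (t + 1)).prod) + _ ≤ _
    rw [hstep t ht]
    rcases hlet t ht with ⟨_, h⟩ | ⟨_, h⟩ | ⟨_, _, a, ha, h⟩ | ⟨_, a, ha, h⟩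
    · rw [h, hc3]; omega
    · rw [h, (rr_letter1 hu).2]; omega
    · rw [h]
      have := (rr_letter3 ha).1
      omega
    · rw [h, (rr_letter5 ha).2]; omega
  · intro t ht
    rw [← hlen] at ht
    show rr 5 (((W.take t).prod)⁻¹ * (W.take (t + 1)).prod) + _ ≤ _
    rw [hstep t ht]
    rcases hlet t ht with ⟨_, h⟩ | ⟨_, h⟩ | ⟨_, _, a, ha, h⟩ | ⟨_, a, ha, h⟩
    · rw [h]
      have := (rr_letter5 cP_norm).1
      omega
    · rw [h, (rr_letter1 hu).1]; omega
    · rw [h, (rr_letter3 ha).2]; omega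
    · rw [h]
      have := (rr_letter5 ha).1
      omega

theorem path_qg (n : ℕ) : ∃ p : ℕ → QG, p 0 = 1 ∧ p n = (cl cP) ^ n ∧
    p (3 * n + 1) = (cl bP) ^ n ∧ IsQuasiGeodesic gens 3 1 (3 * n + 1) p := by
  obtain ⟨p, h0, hn, hN, hw, h3, h5⟩ := exists_path n
  refine ⟨p, h0, hn, hN, ?_⟩
  have TW := tele (N := 3 * n + 1) (r := wordLen gens) wordLen_one wordLen_mul (fun t => t) p
    (fun t ht => by have := hw t ht; show _ + t ≤ t + 1; omega)
  have T3 := tele (N := 3 * n + 1) (r := rr 3) (rr_one 3) (rr_mul 3)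
    (fun t => min (t - (n + 1)) n) p h3
  have T5 := tele (N := 3 * n + 1) (r := rr 5) (rr_one 5) (rr_mul 5)
    (fun t => min t n + (t - (2 * n + 1))) p h5
  beta_reduce at TW T3 T5
  have tri : ∀ l : ℕ, ∀ _ : Fact l.Prime, ∀ a b c : ℕ,
      rr l ((p a)⁻¹ * p c) ≤ rr l ((p a)⁻¹ * p b) + rr l ((p b)⁻¹ * p c) := by
    intro l hl a b c
    have := rr_mul l ((p a)⁻¹ * p b) ((p b)⁻¹ * p c)
    rwa [show (p a)⁻¹ * p b * ((p b)⁻¹ * p c) = (p a)⁻¹ * p c by group] at this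
  have sym : ∀ l : ℕ, ∀ a b : ℕ, rr l ((p a)⁻¹ * p b) = rr l ((p b)⁻¹ * p a) := by
    intro l a b
    rw [← rr_inv, mul_inv_rev, inv_inv]
  have tot3 : rr 3 ((p 0)⁻¹ * p (3 * n + 1)) = n := by
    rw [h0, hN, inv_one, one_mul, rr3_b_pow]
  have tot5a : rr 5 ((p 0)⁻¹ * p n) = n := by
    rw [h0, hn, inv_one, one_mul, rr5_c_pow]
  have tot5b : n ≤ rr 5 ((p n)⁻¹ * p (3 * n + 1)) := by
    have h := tri 5 fact5 0 (3 * n + 1) n
    have h' : rr 5 ((p 0)⁻¹ * p (3 * n + 1)) = 0 := by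
      rw [h0, hN, inv_one, one_mul, rr_pow_zero (rr_letter3 bP_norm).2]
    rw [tot5a, h', sym 5 (3 * n + 1) n] at h
    omega
  have main : ∀ i j, i ≤ j → j ≤ 3 * n + 1 →
      j - i ≤ 3 * wordLen gens ((p i)⁻¹ * p j) + 3 ∧ wordLen gens ((p i)⁻¹ * p j) ≤ j - i := by
    intro i j hij hj
    have hD := le_wordLen ((p i)⁻¹ * p j)
    have hW := TW j i hij hj
    refine ⟨?_, by omega⟩
    have a1 := T3 i 0 (by omega) (by omega)
    have a2 := T3 (3 * n + 1) j (by omega) (by omega)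
    have a3 := tri 3 fact3 0 i (3 * n + 1)
    have a4 := tri 3 fact3 i j (3 * n + 1)
    rcases le_total j n with c | c
    · have b1 := T5 i 0 (by omega) (by omega)
      have b2 := T5 n j (by omega) (by omega)
      have b3 := tri 5 fact5 0 i n
      have b4 := tri 5 fact5 i j n
      omega
    · rcases le_total n i with d | d
      · have b1 := T5 i n (by omega) (by omega)
        have b2 := T5 (3 * n + 1) j (by omega) (by omega)
        have b3 := tri 5 fact5 n i (3 * n + 1)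
        have b4 := tri 5 fact5 i j (3 * n + 1)
        omega
      · have b1 := T5 i 0 (by omega) (by omega)
        have b2 := T5 j n (by omega) (by omega)
        have b3 := tri 5 fact5 0 i n
        have b4 := tri 5 fact5 i j n
        rw [sym 5 j n] at b4
        omega
  have wsym : ∀ a b : ℕ, wordLen gens ((p a)⁻¹ * p b) = wordLen gens ((p b)⁻¹ * p a) := by
    intro a b
    rw [← wordLen_inv, mul_inv_rev, inv_inv]
  have main2 : ∀ i j, i ≤ j → j ≤ 3 * n + 1 →
      ((j : ℝ) - i) / 3 - 1 ≤ (wordLen gens ((p i)⁻¹ * p j) : ℝ) ∧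
      (wordLen gens ((p i)⁻¹ * p j) : ℝ) ≤ 3 * ((j : ℝ) - i) + 1 := by
    intro i j hij hj
    obtain ⟨m1, m2⟩ := main i j hij hj
    have m1' : j ≤ 3 * wordLen gens ((p i)⁻¹ * p j) + 3 + i := by omega
    have m2' : wordLen gens ((p i)⁻¹ * p j) + i ≤ j := by omega
    have m1'' : (j : ℝ) ≤ 3 * (wordLen gens ((p i)⁻¹ * p j) : ℝ) + 3 + i := by exact_mod_cast m1'
    have m2'' : (wordLen gens ((p i)⁻¹ * p j) : ℝ) + i ≤ j := by exact_mod_cast m2'
    have hij' : (i : ℝ) ≤ j := by exact_mod_cast hij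
    constructor <;> linarith
  intro i hi j hj
  rcases le_total i j with h | h
  · have hij' : (i : ℝ) - j ≤ 0 := by
      have : (i : ℝ) ≤ j := by exact_mod_cast h
      linarith
    obtain ⟨m1, m2⟩ := main2 i j h hj
    rw [abs_of_nonpos hij']
    unfold wordDist
    constructor
    · rw [neg_sub]; exact m1
    · rw [neg_sub]; exact m2
  · have hij' : 0 ≤ (i : ℝ) - j := by
      have : (j : ℝ) ≤ i := by exact_mod_cast h
      linarith
    obtain ⟨m1, m2⟩ := main2 j i h hi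
    rw [abs_of_nonneg hij']
    unfold wordDist
    rw [wsym i j]
    exact ⟨m1, m2⟩

theorem not_sqc : ¬ StronglyQuasiconvex gens HH := by
  intro h
  obtain ⟨M, hM⟩ := h 3 1 (by norm_num) (by norm_num)
  obtain ⟨n, hn⟩ := exists_nat_gt M
  obtain ⟨p, h0, hpn, hN, hq⟩ := path_qg n
  obtain ⟨x, hx, hd⟩ := hM (3 * n + 1) p hq (by rw [h0]; exact HH.one_mem)
    (by
      rw [hN]
      exact HH.pow_mem ⟨bP, rfl, Or.inl ⟨rfl, rfl⟩⟩ n) n (by omega)
  rw [hpn] at hd
  have h1 := le_wordLen (((cl cP) ^ n)⁻¹ * x)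
  have h2 := rr_mul 5 ((((cl cP) ^ n)⁻¹ * x)) x⁻¹
  rw [show ((cl cP) ^ n)⁻¹ * x * x⁻¹ = ((cl cP) ^ n)⁻¹ by group, rr_inv, rr_inv, rr5_c_pow,
    rr5_HH hx] at h2
  have h3 : n ≤ wordDist gens ((cl cP) ^ n) x := by
    unfold wordDist
    omega
  have h4 : (n : ℝ) ≤ (wordDist gens ((cl cP) ^ n) x : ℝ) := by exact_mod_cast h3
  linarith

end Pool.Agent.H290R3.HHG
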