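import Mathlib
import Pool.Agent.H290R3.HHG.Metric

set_option autoImplicit false

namespace Pool.Agent.H290R3.HHG

open Pool.Agent.H290R3.HHGDefs

/-- The three domains. -/
inductive Dom
  | S
  | A
  | B
  deriving DecidableEq

instance : Fintype Dom where
  elems := {Dom.S, Dom.A, Dom.B}
  complete := by intro x; cases x <;> decide

/-- The graphs attached to the domains. -/
def dgraph : Dom → SimpleGraph QG
  | .S => ⊤
  | .A => tg 3
  | .B => tg 5

def dnest (V W : Dom) : Prop := W = Dom.S ∨ V = W

instance : ∀ V W, Decidable (dnest V W) := fun V W => by unfold dnest; infer_instance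

def dorth (V W : Dom) : Prop := (V = Dom.A ∧ W = Dom.B) ∨ (V = Dom.B ∧ W = Dom.A)

instance : ∀ V W, Decidable (dorth V W) := fun V W => by unfold dorth; infer_instance

theorem dist_top_le (x y : QG) : (⊤ : SimpleGraph QG).dist x y ≤ 1 := by
  by_cases h : x = y
  · subst h
    simp
  · have : (⊤ : SimpleGraph QG).Adj x y := h
    rw [SimpleGraph.dist_eq_one_iff_adj.mpr this]

theorem hyp_top : Hyperbolic 1 (⊤ : SimpleGraph QG) := by
  refine ⟨SimpleGraph.connected_top, ?_⟩
  intro x y z w
  have h1 : ((⊤ : SimpleGraph QG).dist x y : ℝ) ≤ 1 := by exact_mod_cast dist_top_le x y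
  have h2 : ((⊤ : SimpleGraph QG).dist z w : ℝ) ≤ 1 := by exact_mod_cast dist_top_le z w
  have h3 : (0 : ℝ) ≤ ((⊤ : SimpleGraph QG).dist x z : ℝ) + (⊤ : SimpleGraph QG).dist y w := by
    positivity
  have h4 := le_max_left (((⊤ : SimpleGraph QG).dist x z : ℝ) + (⊤ : SimpleGraph QG).dist y w)
    (((⊤ : SimpleGraph QG).dist x w : ℝ) + (⊤ : SimpleGraph QG).dist y z)
  linarith

theorem no_trans (V W : Dom) : ¬ (¬ dorth V W ∧ ¬ dnest V W ∧ ¬ dnest W V) := by
  revert V W; decide

theorem proper_top (V W : Dom) (h : dnest V W) (h' : V ≠ W) : W = Dom.S := by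
  revert V W; decide

theorem setDist_top_univ (x : QG) : setDist (⊤ : SimpleGraph QG) {x} Set.univ ≤ 0 := by
  have := setDist_le (Γ := (⊤ : SimpleGraph QG)) (A := {x}) (B := Set.univ) (p := x) (q := x)
    rfl (Set.mem_univ x)
  simpa using this

theorem dist_le_word (W : Dom) (x y : QG) : (dgraph W).dist x y ≤ wordDist gens x y + 1 := by
  have h := le_wordLen (x⁻¹ * y)
  cases W with
  | S =>
    have := dist_top_le x y
    change (⊤ : SimpleGraph QG).dist x y ≤ wordLen gens (x⁻¹ * y) + 1
    omega
  | A =>
    have := dist_le_rr (l := 3) (Or.inl rfl) x y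
    change (tg 3).dist x y ≤ wordLen gens (x⁻¹ * y) + 1
    omega
  | B =>
    have := dist_le_rr (l := 5) (Or.inr rfl) x y
    change (tg 5).dist x y ≤ wordLen gens (x⁻¹ * y) + 1
    omega

theorem tg_adj_mul (l : ℕ) (g p q : QG) : (tg l).Adj p q ↔ (tg l).Adj (g * p) (g * q) := by
  unfold tg
  simp only [ne_eq, mul_right_inj, mul_inv_rev]
  rw [show p⁻¹ * g⁻¹ * (g * q) = p⁻¹ * q by group]

theorem dgraph_adj_mul (W : Dom) (g p q : QG) :
    (dgraph W).Adj p q ↔ (dgraph W).Adj (g * p) (g * q) := by
  cases W with
  | S => simp [dgraph]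
  | A => exact tg_adj_mul 3 g p q
  | B => exact tg_adj_mul 5 g p q

/-- The hierarchically hyperbolic structure. -/
noncomputable def hhg : HHG QG gens where
  Idx := Dom
  C := fun _ => QG
  graph := dgraph
  δ := 1
  ξ := 1
  K := 1
  κ := 1
  E := 1
  lam := 2
  α := 1
  hyperbolic := by
    intro W
    cases W with
    | S => exact hyp_top
    | A => exact tg_hyperbolic (Or.inl rfl)
    | B => exact tg_hyperbolic (Or.inr rfl)
  proj := fun _ x => {x}
  proj_nonempty := fun _ x => ⟨x, rfl⟩
  proj_diam := by
    rintro W x p rfl q rfl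
    simp
  proj_lipschitz := by
    rintro W x y p rfl q rfl
    have := dist_le_word W p q
    rw [one_mul]
    exact_mod_cast this
  proj_quasiconvex := by
    intro W x y p _ q _ m _
    refine ⟨m, m, rfl, ?_⟩
    simp
  nest := dnest
  nest_refl := by decide
  nest_trans := by decide
  nest_antisymm := by decide
  top := Dom.S
  nest_top := by decide
  orth := dorth
  orth_symm := by decide
  orth_irrefl := by decide
  orth_of_nest := by decide
  container := by decide
  orth_not_nest := by decide
  rho := fun _ _ => Set.univ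
  rhoMap := fun _ _ _ => Set.univ
  rho_nonempty := fun _ _ _ => ⟨1, Set.mem_univ _⟩
  rho_diam := by
    intro V W h p _ q _
    rcases h with ⟨h1, h2⟩ | h
    · rw [proper_top V W h1 h2]
      exact_mod_cast dist_top_le p q
    · exact absurd h (no_trans V W)
  consistency_transverse := fun V W h => absurd h (no_trans V W)
  consistency_nested := by
    intro V W h1 h2 x
    left
    rw [proper_top V W h1 h2]
    exact (setDist_top_univ x).trans zero_le_one
  consistency_rho := by
    intro U V W _ h
    rcases h with ⟨h1, h2⟩ | h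
    · have h3 := setDist_le (Γ := dgraph W) (A := Set.univ) (B := Set.univ) (p := (1 : QG)) (q := 1)
        (Set.mem_univ _) (Set.mem_univ _)
      refine h3.trans ?_
      simp
    · exact absurd h.1 (no_trans V W)
  complexity := ⟨3, fun F _ => by
    have := Finset.card_le_univ F
    exact this⟩
  lam_ge := by norm_num
  E_ge := by norm_num
  large_links := by
    intro W x x'
    have hs := setDist_nonneg (dgraph W) {x} {x'}
    by_cases hW : W = Dom.S
    · subst hW
      refine ⟨{Dom.A, Dom.B}, ?_, ?_, ?_⟩
      · have : ({Dom.A, Dom.B} : Finset Dom).card = 2 := by decide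
        rw [this]
        push_cast
        linarith
      · intro V hV
        refine ⟨Or.inl rfl, ?_, ?_⟩
        · rintro rfl
          revert hV; decide
        · have := setDist_top_univ x
          have e : dgraph Dom.S = ⊤ := rfl
          rw [← e] at this
          linarith
      · intro V hV hV'
        left
        refine ⟨V, ?_, Or.inr rfl⟩
        cases V with
        | S => exact absurd rfl hV'
        | A => decide
        | B => decide
    · refine ⟨∅, ?_, ?_, ?_⟩
      · simp only [Finset.card_empty, Nat.cast_zero]; linarith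
      · intro V hV
        simp at hV
      · intro V hV hV'
        exact absurd (proper_top V W hV hV') hW
  bounded_geodesic_image := by
    intro V W _ _ m γ _
    right
    refine ⟨0, Nat.zero_le _, γ 0, Set.mem_univ _, ?_⟩
    simp
  partial_realization := by
    intro J hJ p _
    have hrho : ∀ x : QG, ∀ V W : Dom,
        (dnest V W ∧ V ≠ W) ∨ (¬ dorth V W ∧ ¬ dnest V W ∧ ¬ dnest W V) →
        setDist (dgraph W) {x} Set.univ ≤ 1 := by
      intro x V W h
      rcases h with ⟨h1, h2⟩ | h
      · rw [proper_top V W h1 h2]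
        exact (setDist_top_univ x).trans zero_le_one
      · exact absurd h (no_trans V W)
    by_cases hS : Dom.S ∈ J
    · refine ⟨p Dom.S, ?_⟩
      intro V hV
      have hVS : V = Dom.S := by
        by_contra hne
        have := hJ V hV Dom.S hS hne
        revert this
        cases V <;> decide
      subst hVS
      refine ⟨?_, fun W hW => hrho _ _ W hW⟩
      rw [setDist_singleton]
      simp
    · obtain ⟨u, v, huv, hu, hv⟩ := split ((p Dom.A)⁻¹ * p Dom.B)
      refine ⟨p Dom.A * u, ?_⟩
      intro V hV
      refine ⟨?_, fun W hW => hrho _ _ W hW⟩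
      rw [setDist_singleton]
      cases V with
      | S => exact absurd hV hS
      | A =>
        have := dist_le_rr (l := 3) (Or.inl rfl) (p Dom.A * u) (p Dom.A)
        rw [show (p Dom.A * u)⁻¹ * p Dom.A = u⁻¹ by group, rr_inv, hu] at this
        exact_mod_cast this
      | B =>
        have := dist_le_rr (l := 5) (Or.inr rfl) (p Dom.A * u) (p Dom.B)
        rw [show (p Dom.A * u)⁻¹ * p Dom.B = u⁻¹ * ((p Dom.A)⁻¹ * p Dom.B) by group, huv,
          inv_mul_cancel_left, hv] at this
        exact_mod_cast this
  uniqueness := by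
    intro c
    refine ⟨2 * c + 1, ?_⟩
    intro x y h
    by_contra hcon
    push Not at hcon
    have hA := hcon Dom.A
    have hB := hcon Dom.B
    rw [setDist_singleton] at hA hB
    have h1 := wordLen_le (x⁻¹ * y)
    have h2 := rr_le_dist (l := 3) (Or.inl rfl) x y
    have h3 := rr_le_dist (l := 5) (Or.inr rfl) x y
    have h4 : wordDist gens x y ≤ (tg 3).dist x y + (tg 5).dist x y + 1 := by
      unfold wordDist; omega
    have h5 : (wordDist gens x y : ℝ) ≤ (tg 3).dist x y + (tg 5).dist x y + 1 := by
      exact_mod_cast h4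
    have hA' : ((tg 3).dist x y : ℝ) < c := hA
    have hB' : ((tg 5).dist x y : ℝ) < c := hB
    linarith
  act := fun _ W => W
  act_one := fun _ => rfl
  act_mul := fun _ _ _ => rfl
  act_nest := fun _ _ _ => Iff.rfl
  act_orth := fun _ _ _ => Iff.rfl
  act_cofinite := ⟨Set.univ, Set.finite_univ, fun W => ⟨1, W, Set.mem_univ _, rfl⟩⟩
  iso := fun g _ => Equiv.mulLeft g
  iso_adj := fun g W p q => dgraph_adj_mul W g p q
  iso_one := by
    intro W p
    simp
  iso_mul := by
    intro g h W p
    simp
  proj_equivariant := by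
    intro g W x
    simp
  rho_equivariant := by
    intro g V W _
    rw [Set.image_univ, Equiv.range_eq_univ]
  rhoMap_equivariant := by
    intro g V W _ _ w
    rw [Set.image_univ, Equiv.range_eq_univ]

end Pool.Agent.H290R3.HHG
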